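import Mathlib
import Pool.Agent.Helper669.Forcing

set_option autoImplicit false

/-!
# `Q`-sets and `Δ`-sets of real numbers in the language of forcing

A sentence about the extension is given by the set of the conditions which force it. A name for a
subset of a ground model set `T` is a map `T → Set P`; `meets (N t)` is the sentence which says that
`t` belongs to the set named by `N`. A real number is given by the set of the rational numbers below
it, an open set by a set of open intervals (rectangles) with rational end points.
-/

namespace Run7.h699.Delta

open Pool.Agent.Helper669.Forcing

variable {P : Type} [Preorder P]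

/-- A name of a real number `x`: `R q` is the name of the statement `q < x`. -/
abbrev RName (P : Type) : Type := ℚ → Set P

/-- `R` names the set `{q ∈ ℚ : q < x}` for some real number `x`: a nonempty proper subset of `ℚ`
which is closed downwards and has no largest element. -/
def IsReal (R : RName P) : Set P :=
  fand
    (fand (fex fun q => meets (R q)) (fex fun q => fnot (meets (R q))))
    (fand
      (fall fun q => fall fun q' => fimp (fand (fground (q < q')) (meets (R q'))) (meets (R q)))
      (fall fun q => fimp (meets (R q)) (fex fun q' => fand (fground (q < q')) (meets (R q')))))

/-- The real numbers named by `R` and `S` are different. -/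
def RealNe (R S : RName P) : Set P :=
  fnot (fall fun q => fand (fimp (meets (R q)) (meets (S q))) (fimp (meets (S q)) (meets (R q))))

/-- The real number `x` named by `R` is in the open interval with end points `I.1`, `I.2`:
`I.1 < x`, and `x ≤ c` for some rational number `c < I.2`. -/
def InI (R : RName P) (I : ℚ × ℚ) : Set P :=
  fand (meets (R I.1)) (fex fun c => fand (fground (c < I.2)) (fnot (meets (R c))))

/-- The real number named by `R` is in the open set named by `U`, the union of the intervals `I` in
the set named by `U`. -/
def InOpen (R : RName P) (U : ℚ × ℚ → Set P) : Set P :=
  fex fun I => fand (meets (U I)) (InI R I)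

/-- The pair of the real numbers named by `R` and `S` is in the open subset of the plane named by
`U`, the union of the rectangles in the set named by `U`. -/
def InOpen2 (R S : RName P) (U : (ℚ × ℚ) × (ℚ × ℚ) → Set P) : Set P :=
  fex fun B => fand (meets (U B)) (fand (InI R B.1) (InI S B.2))

/-- The sets named by `D n`, `n ∈ ℕ`, are pairwise disjoint and their union is `T`. -/
def IsPartition {T : Type} (D : ℕ → T → Set P) : Set P :=
  fand (fall fun t => fex fun n => meets (D n t))
    (fall fun t => fall fun n => fall fun m =>
      fimp (fand (meets (D n t)) (meets (D m t))) (fground (n = m)))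

/-- The set `X = {X e : e ∈ E}` of (pairwise different) real numbers is a `Q`-set: every subset
`{X e : e ∈ Z}` is the trace of the intersection of countably many open sets. -/
def IsQSet {E : Type} (X : E → RName P) : Set P :=
  fall fun Z : E → Set P => fex fun U : ℕ → ℚ × ℚ → Set P =>
    fall fun e => fand (fimp (meets (Z e)) (fall fun n => InOpen (X e) (U n)))
      (fimp (fall fun n => InOpen (X e) (U n)) (meets (Z e)))

/-- The set `X = {X e : e ∈ E}` of (pairwise different) real numbers is a `Δ`-set: for every
partition of `X` into sets `{X e : e ∈ D n}`, `n ∈ ℕ`, there are open sets `U n` which contain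
them, such that every element of `X` lies in `U n` for only finitely many `n`. -/
def IsDeltaSet {E : Type} (X : E → RName P) : Set P :=
  fall fun D : ℕ → E → Set P => fimp (IsPartition D)
    (fex fun U : ℕ → ℚ × ℚ → Set P =>
      fand (fall fun n => fall fun e => fimp (meets (D n e)) (InOpen (X e) (U n)))
        (fall fun e => fex fun m : ℕ => fall fun n : ℕ => fall fun _ : m ≤ n =>
          fnot (InOpen (X e) (U n))))

/-- The square `X × X`, where `X = {X e : e ∈ E}`, is a `Δ`-set: for every partition of `X × X` into
sets `{(X e, X e') : (e, e') ∈ D n}`, `n ∈ ℕ`, there are open subsets `U n` of the plane which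
contain them, such that every element of `X × X` lies in `U n` for only finitely many `n`. -/
def IsDeltaSquare {E : Type} (X : E → RName P) : Set P :=
  fall fun D : ℕ → E × E → Set P => fimp (IsPartition D)
    (fex fun U : ℕ → (ℚ × ℚ) × (ℚ × ℚ) → Set P =>
      fand (fall fun n => fall fun e : E × E => fimp (meets (D n e)) (InOpen2 (X e.1) (X e.2) (U n)))
        (fall fun e : E × E => fex fun m : ℕ => fall fun n : ℕ => fall fun _ : m ≤ n =>
          fnot (InOpen2 (X e.1) (X e.2) (U n))))

/-- Every set of pairwise incompatible conditions is countable. -/
def CCC (P : Type) [Preorder P] : Prop :=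
  ∀ A : Set P, (∀ a ∈ A, ∀ b ∈ A, (∃ r, r ≤ a ∧ r ≤ b) → a = b) → A.Countable

end Run7.h699.Delta
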