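import Mathlib
import Pool.Agent.Run7.h699.Flip.Cond
import Pool.Agent.Run7.h699.Delta.Defs

set_option autoImplicit false

/-!
# The forcing notion

Conditions are finite sets of facts about a function `h : K × K → ℕ`, sequences `x e : ℕ → 2` for
`e ∈ K` and closed sets `C B n` of such sequences, where `B` runs through the codes of names of
subsets of `K`. A code `B` lists, for every `e : K`, countably many finite lists of facts: the list
with number `j` consists of `B e j (i + 1)` for `i < len (B e j 0)`.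
-/

namespace Run7.h699.Delta

variable {K : Type}

/-- Facts: `h (a, b) = n`; `x e i = v`; no element of `C B n` begins with `t`;
`x e` belongs to `C B n`. -/
inductive Ft (K : Type) : Type
  | h (a b : K) (n : ℕ)
  | x (e : K) (i : ℕ) (v : Bool)
  | rem (B : K → ℕ → ℕ → Ft K) (n : ℕ) (t : List Bool)
  | pro (B : K → ℕ → ℕ → Ft K) (n : ℕ) (e : K)

/-- codes of names of subsets of `K` -/
abbrev Co (K : Type) : Type := K → ℕ → ℕ → Ft K

/-- the number in a fact -/
def len : Ft K → ℕ
  | .x _ i _ => i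
  | _ => 0

/-- consistency of a set of facts -/
structure Valid (s : Set (Ft K)) : Prop where
  hfun : ∀ a b n m, Ft.h a b n ∈ s → Ft.h a b m ∈ s → n = m
  xfun : ∀ e i v w, Ft.x e i v ∈ s → Ft.x e i w ∈ s → v = w
  avoid : ∀ (B : Co K) n e t, Ft.pro B n e ∈ s → Ft.rem B n t ∈ s →
    ∃ i v, t[i]? = some v ∧ Ft.x e i (!v) ∈ s
  cert : ∀ (B : Co K) n e, Ft.pro B n e ∈ s → ∃ j, ∀ i < len (B e j 0), B e j (i + 1) ∈ s

/-- conditions -/
structure Cd (K : Type) where
  /-- the facts -/
  s : Set (Ft K)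
  fin : s.Finite
  val : Valid s

instance : Preorder (Cd K) where
  le q p := p.s ⊆ q.s
  le_refl _ := subset_rfl
  le_trans _ _ _ h h' := h'.trans h

theorem le_iff {p q : Cd K} : q ≤ p ↔ p.s ⊆ q.s := Iff.rfl

/-- coordinates -/
inductive At (K : Type) : Type
  | hh (a b : K)
  | pt (e : K)
  | co (B : K → ℕ → ℕ → Ft K)

/-- the coordinates of a fact -/
def ats : Ft K → Set (At K)
  | .h a b _ => {At.hh a b}
  | .x e _ _ => {At.pt e}
  | .rem B _ _ => {At.co B}
  | .pro B _ e => {At.co B, At.pt e}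

theorem ats_fin (f : Ft K) : (ats f).Finite := by
  cases f <;> simp [ats]

/-- the facts with coordinates in `C` -/
def NN (C : Set (At K)) : Set (Ft K) := {f | ats f ⊆ C}

theorem mem_NN_h {C : Set (At K)} {a b : K} {n : ℕ} : Ft.h a b n ∈ NN C ↔ At.hh a b ∈ C := by
  simp [NN, ats]

theorem mem_NN_x {C : Set (At K)} {e : K} {i : ℕ} {v : Bool} :
    Ft.x e i v ∈ NN C ↔ At.pt e ∈ C := by
  simp [NN, ats]

theorem mem_NN_rem {C : Set (At K)} {B : Co K} {n : ℕ} {t : List Bool} :
    Ft.rem B n t ∈ NN C ↔ At.co B ∈ C := by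
  simp [NN, ats]

theorem mem_NN_pro {C : Set (At K)} {B : Co K} {n : ℕ} {e : K} :
    Ft.pro B n e ∈ NN C ↔ At.co B ∈ C ∧ At.pt e ∈ C := by
  simp [NN, ats, Set.insert_subset_iff]

/-! ### Gluing -/

theorem glue {b : Set (Ft K)} {A : Set K} {W : K → Set (Ft K)}
    (hb : ∀ a c n m, Ft.h a c n ∈ b → Ft.h a c m ∈ b → n = m)
    (hW : ∀ e, Valid (W e))
    (hx : ∀ e i v, Ft.x e i v ∈ b → Ft.x e i v ∈ W e)
    (hp : ∀ (B : Co K) n e, Ft.pro B n e ∈ b → e ∈ A ∧ Ft.pro B n e ∈ W e)
    (hr : ∀ (B : Co K) n t e, Ft.rem B n t ∈ b → Ft.rem B n t ∈ W e)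
    (hc : ∀ (B : Co K) n e, Ft.pro B n e ∈ b → ∃ j, ∀ i < len (B e j 0), B e j (i + 1) ∈ b) :
    Valid (b ∪ {f | ∃ e i v, f = Ft.x e i v ∧ e ∈ A ∧ Ft.x e i v ∈ W e}) := by
  have hx' : ∀ e i v, Ft.x e i v ∈ b ∪ {f | ∃ e i v, f = Ft.x e i v ∧ e ∈ A ∧ Ft.x e i v ∈ W e} →
      Ft.x e i v ∈ W e := by
    rintro e i v (h | ⟨e', i', v', h, -, h'⟩)
    · exact hx e i v h
    · injection h with h1 h2 h3
      subst h1; subst h2; subst h3
      exact h'
  refine ⟨?_, ?_, ?_, ?_⟩
  · rintro a c n m (h | ⟨e', i', v', h, -, -⟩) (h' | ⟨e'', i'', v'', h', -, -⟩)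
    · exact hb a c n m h h'
    · exact absurd h' (by simp)
    · exact absurd h (by simp)
    · exact absurd h (by simp)
  · intro e i v w h h'
    exact (hW e).xfun e i v w (hx' _ _ _ h) (hx' _ _ _ h')
  · rintro B n e t (h | ⟨e', i', v', h, -, -⟩) (h' | ⟨e'', i'', v'', h', -, -⟩)
    · obtain ⟨hA, h1⟩ := hp B n e h
      obtain ⟨i, v, h2, h3⟩ := (hW e).avoid B n e t h1 (hr B n t e h')
      exact ⟨i, v, h2, Or.inr ⟨e, i, _, rfl, hA, h3⟩⟩
    · exact absurd h' (by simp)
    · exact absurd h (by simp)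
    · exact absurd h (by simp)
  · rintro B n e (h | ⟨e', i', v', h, -, -⟩)
    · obtain ⟨j, h2⟩ := hc B n e h
      exact ⟨j, fun f hf => Or.inl (h2 f hf)⟩
    · exact absurd h (by simp)

/-- the points outside `C` with a promise at a code in `C` -/
def Out (C : Set (At K)) (p : Set (Ft K)) : Set K :=
  {e | At.pt e ∉ C ∧ ∃ (B : Co K) (n : ℕ), At.co B ∈ C ∧ Ft.pro B n e ∈ p}

/-- `q` contains the part of `p` in `C`, and copies `g e` of the points `e` of `p` outside `C` -/
structure Red (C : Set (At K)) (p q : Set (Ft K)) (g : K → K) : Prop where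
  sub : p ∩ NN C ⊆ q
  pro : ∀ e ∈ Out C p, ∀ (B : Co K) n, At.co B ∈ C → Ft.pro B n e ∈ p → Ft.pro B n (g e) ∈ q
  x : ∀ e ∈ Out C p, ∀ i v, Ft.x e i v ∈ p → Ft.x (g e) i v ∈ q

theorem Red.mono {C : Set (At K)} {p q q' : Set (Ft K)} {g : K → K} (h : Red C p q g)
    (hq : q ⊆ q') : Red C p q' g :=
  ⟨h.sub.trans hq, fun e he B n hB hp => hq (h.pro e he B n hB hp),
    fun e he i v hp => hq (h.x e he i v hp)⟩

/-- the amalgam -/
def amal (C : Set (At K)) (p q : Set (Ft K)) (g : K → K) : Set (Ft K) :=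
  (p ∪ q) ∪ {f | ∃ e i v, f = Ft.x e i v ∧ e ∈ Out C p ∧ Ft.x (g e) i v ∈ q}

theorem amal_mono {C : Set (At K)} {p q q' : Set (Ft K)} {g : K → K} (hq : q ⊆ q') :
    amal C p q g ⊆ amal C p q' g := by
  rintro f ((h | h) | ⟨e, i, v, rfl, he, h⟩)
  · exact Or.inl (Or.inl h)
  · exact Or.inl (Or.inr (hq h))
  · exact Or.inr ⟨e, i, v, rfl, he, hq h⟩

theorem left_sub_amal {C : Set (At K)} {p q : Set (Ft K)} {g : K → K} : p ⊆ amal C p q g :=
  fun _ h => Or.inl (Or.inl h)

theorem right_sub_amal {C : Set (At K)} {p q : Set (Ft K)} {g : K → K} : q ⊆ amal C p q g :=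
  fun _ h => Or.inl (Or.inr h)

theorem amal_fin {C : Set (At K)} {p q : Set (Ft K)} {g : K → K} (hp : p.Finite)
    (hq : q.Finite) : (amal C p q g).Finite := by
  refine (hp.union hq).union ?_
  have h1 : (Out C p).Finite := by
    have : Out C p ⊆ some ⁻¹' ((fun f : Ft K => match f with
      | .pro _ _ e => some e
      | _ => none) '' p) := by
      rintro e ⟨-, B, n, -, h⟩
      exact ⟨_, h, rfl⟩
    exact ((hp.image _).preimage (Option.some_injective K).injOn).subset this
  have h2 : {f | ∃ e i v, f = Ft.x e i v ∧ e ∈ Out C p ∧ Ft.x (g e) i v ∈ q} ⊆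
      Set.image2 (fun (e : K) (f : Ft K) => match f with
        | .x _ i v => Ft.x e i v
        | f => f) (Out C p) q := by
    rintro f ⟨e, i, v, rfl, he, h⟩
    exact ⟨e, he, _, h, rfl⟩
  exact (h1.image2 _ hq).subset h2

theorem amal_valid {C : Set (At K)} {p q : Set (Ft K)} {g : K → K} (hp : Valid p) (hq : Valid q)
    (hqC : q ⊆ NN C) (h : Red C p q g) : Valid (amal C p q g) := by
  refine ⟨?_, ?_, ?_, ?_⟩
  · intro a b n m h1 h2
    have key : ∀ n, Ft.h a b n ∈ amal C p q g → Ft.h a b n ∈ p ∨ Ft.h a b n ∈ q := by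
      rintro n ((h | h) | ⟨e, i, v, h, -⟩)
      · exact Or.inl h
      · exact Or.inr h
      · exact absurd h (by simp)
    have key2 : ∀ n m, Ft.h a b n ∈ p → Ft.h a b m ∈ q → Ft.h a b n ∈ q := by
      intro n m h1 h2
      exact h.sub ⟨h1, mem_NN_h.2 (mem_NN_h.1 (hqC h2))⟩
    rcases key n h1 with h1 | h1 <;> rcases key m h2 with h2 | h2
    · exact hp.hfun a b n m h1 h2
    · exact hq.hfun a b n m (key2 n m h1 h2) h2
    · exact hq.hfun a b n m h1 (key2 m n h2 h1)
    · exact hq.hfun a b n m h1 h2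
  · intro e i v w h1 h2
    by_cases he : At.pt e ∈ C
    · have key : ∀ v, Ft.x e i v ∈ amal C p q g → Ft.x e i v ∈ q := by
        rintro v ((h' | h') | ⟨e', i', v', h', ho, -⟩)
        · exact h.sub ⟨h', mem_NN_x.2 he⟩
        · exact h'
        · injection h' with h3 h4 h5
          subst h3
          exact absurd he ho.1
      exact hq.xfun e i v w (key v h1) (key w h2)
    · by_cases ho : e ∈ Out C p
      · have key : ∀ v, Ft.x e i v ∈ amal C p q g → Ft.x (g e) i v ∈ q := by
          rintro v ((h' | h') | ⟨e', i', v', h', -, h3⟩)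
          · exact h.x e ho i v h'
          · exact absurd (mem_NN_x.1 (hqC h')) he
          · injection h' with h4 h5 h6
            subst h4; subst h5; subst h6
            exact h3
        exact hq.xfun _ i v w (key v h1) (key w h2)
      · have key : ∀ v, Ft.x e i v ∈ amal C p q g → Ft.x e i v ∈ p := by
          rintro v ((h' | h') | ⟨e', i', v', h', ho', -⟩)
          · exact h'
          · exact absurd (mem_NN_x.1 (hqC h')) he
          · injection h' with h4 h5 h6
            subst h4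
            exact absurd ho' ho
        exact hp.xfun _ i v w (key v h1) (key w h2)
  · intro B n e t h1 h2
    have h1' : Ft.pro B n e ∈ p ∨ Ft.pro B n e ∈ q := by
      rcases h1 with (h' | h') | ⟨e', i', v', h', -⟩
      · exact Or.inl h'
      · exact Or.inr h'
      · exact absurd h' (by simp)
    have h2' : Ft.rem B n t ∈ p ∨ Ft.rem B n t ∈ q := by
      rcases h2 with (h' | h') | ⟨e', i', v', h', -⟩
      · exact Or.inl h'
      · exact Or.inr h'
      · exact absurd h' (by simp)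
    by_cases hB : At.co B ∈ C
    · have h3 : Ft.rem B n t ∈ q := by
        rcases h2' with h' | h'
        · exact h.sub ⟨h', mem_NN_rem.2 hB⟩
        · exact h'
      by_cases he : At.pt e ∈ C
      · have h4 : Ft.pro B n e ∈ q := by
          rcases h1' with h' | h'
          · exact h.sub ⟨h', mem_NN_pro.2 ⟨hB, he⟩⟩
          · exact h'
        obtain ⟨i, v, h5, h6⟩ := hq.avoid B n e t h4 h3
        exact ⟨i, v, h5, Or.inl (Or.inr h6)⟩
      · have h4 : Ft.pro B n e ∈ p := by
          rcases h1' with h' | h'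
          · exact h'
          · exact absurd (mem_NN_pro.1 (hqC h')).2 he
        have ho : e ∈ Out C p := ⟨he, B, n, hB, h4⟩
        obtain ⟨i, v, h5, h6⟩ := hq.avoid B n (g e) t (h.pro e ho B n hB h4) h3
        exact ⟨i, v, h5, Or.inr ⟨e, i, _, rfl, ho, h6⟩⟩
    · have h3 : Ft.pro B n e ∈ p := by
        rcases h1' with h' | h'
        · exact h'
        · exact absurd (mem_NN_pro.1 (hqC h')).1 hB
      have h4 : Ft.rem B n t ∈ p := by
        rcases h2' with h' | h'
        · exact h'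
        · exact absurd (mem_NN_rem.1 (hqC h')) hB
      obtain ⟨i, v, h5, h6⟩ := hp.avoid B n e t h3 h4
      exact ⟨i, v, h5, Or.inl (Or.inl h6)⟩
  · intro B n e h1
    rcases h1 with (h' | h') | ⟨e', i', v', h', -⟩
    · obtain ⟨j, h2⟩ := hp.cert B n e h'
      exact ⟨j, fun f hf => Or.inl (Or.inl (h2 f hf))⟩
    · obtain ⟨j, h2⟩ := hq.cert B n e h'
      exact ⟨j, fun f hf => Or.inl (Or.inr (h2 f hf))⟩
    · exact absurd h' (by simp)

end Run7.h699.Delta
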