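import Mathlib
import Pool.Agent.Run7.h699.Delta.Cond

set_option autoImplicit false

/-!
# Countable closed sets of coordinates
-/

namespace Run7.h699.Delta

variable {K : Type}

/-- templates of facts about a point -/
inductive Tm (K : Type) : Type
  | tx (i : ℕ) (v : Bool)
  | tp (B : K → ℕ → ℕ → Ft K) (n : ℕ)

/-- the fact about the point `e` -/
def inst (e : K) : Tm K → Ft K
  | .tx i v => .x e i v
  | .tp B n => .pro B n e

/-- the templates with codes in `C` -/
def TN (C : Set (At K)) : Set (Tm K) := {T | ∀ B n, T = Tm.tp B n → At.co B ∈ C}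

/-- `p` realises the finite configuration -/
def Rlz (w : Set (Ft K)) (d : Set (Set (Tm K))) (p : Set (Ft K)) : Prop :=
  p.Finite ∧ Valid p ∧ w ⊆ p ∧ ∀ τ ∈ d, ∃ e, ∀ T ∈ τ, inst e T ∈ p

/-- all finite configurations over `C` which can be realised are realised in `C` -/
def Good (C : Set (At K)) : Prop :=
  ∀ w : Set (Ft K), w.Finite → w ⊆ NN C → ∀ d : Set (Set (Tm K)), d.Finite →
    (∀ τ ∈ d, τ.Finite ∧ τ ⊆ TN C) → (∃ p, Rlz w d p) → ∃ p, Rlz w d p ∧ p ⊆ NN C

theorem out_fin {C : Set (At K)} {p : Set (Ft K)} (hp : p.Finite) : (Out C p).Finite := by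
  have : Out C p ⊆ some ⁻¹' ((fun f : Ft K => match f with
      | .pro _ _ e => some e
      | _ => none) '' p) := by
    rintro e ⟨-, B, n, -, h⟩
    exact ⟨_, h, rfl⟩
  exact ((hp.image _).preimage (Option.some_injective K).injOn).subset this

theorem inst_inj (e : K) : Function.Injective (inst e) := by
  intro T T' h
  cases T <;> cases T' <;> simp_all [inst]

theorem exists_red [Nonempty K] {C : Set (At K)} (hC : Good C) (p : Cd K) :
    ∃ (q : Cd K) (g : K → K), q.s ⊆ NN C ∧ Red C p.s q.s g := by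
  classical
  obtain ⟨q, ⟨hqf, hqv, hqw, hqd⟩, hqC⟩ := hC (p.s ∩ NN C) (p.fin.subset Set.inter_subset_left)
    Set.inter_subset_right ((fun e => {T | T ∈ TN C ∧ inst e T ∈ p.s}) '' Out C p.s)
    ((out_fin p.fin).image _) (by
      rintro τ ⟨e, he, rfl⟩
      refine ⟨?_, fun T hT => hT.1⟩
      have h1 : ((inst e) ⁻¹' p.s).Finite := p.fin.preimage (inst_inj e).injOn
      exact h1.subset fun T hT => hT.2)
    ⟨p.s, p.fin, p.val, Set.inter_subset_left, by
      rintro τ ⟨e, he, rfl⟩
      exact ⟨e, fun T hT => hT.2⟩⟩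
  choose! g hg using hqd
  refine ⟨⟨q, hqf, hqv⟩, fun e => g {T | T ∈ TN C ∧ inst e T ∈ p.s}, hqC, ⟨hqw, ?_, ?_⟩⟩
  · intro e he B n hB hp
    refine hg _ ⟨e, he, rfl⟩ (Tm.tp B n) ⟨?_, hp⟩
    rintro B' n' h
    injection h with h1 h2
    subst h1
    exact hB
  · intro e he i v hp
    refine hg _ ⟨e, he, rfl⟩ (Tm.tx i v) ⟨?_, hp⟩
    rintro B' n' h
    injection h

theorem countable_NN {C : Set (At K)} (hC : C.Countable) : (NN C).Countable := by
  let φ : Ft K → (At K × At K) × (ℕ × ℕ × Bool × List Bool) := fun f => match f with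
    | .h a b n => ((At.hh a b, At.hh a b), (0, n, false, []))
    | .x e i v => ((At.pt e, At.pt e), (1, i, v, []))
    | .rem B n t => ((At.co B, At.co B), (2, n, false, t))
    | .pro B n e => ((At.co B, At.pt e), (3, n, false, []))
  have hφ : Function.Injective φ := by
    intro f f' h
    cases f <;> cases f' <;> simp_all [φ]
  have h1 : NN C ⊆ φ ⁻¹' ((C ×ˢ C) ×ˢ (Set.univ : Set (ℕ × ℕ × Bool × List Bool))) := by
    intro f hf
    cases f with
    | h a b n => have := mem_NN_h.1 hf; exact ⟨⟨this, this⟩, trivial⟩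
    | x e i v => have := mem_NN_x.1 hf; exact ⟨⟨this, this⟩, trivial⟩
    | rem B n t => have := mem_NN_rem.1 hf; exact ⟨⟨this, this⟩, trivial⟩
    | pro B n e => have := mem_NN_pro.1 hf; exact ⟨⟨this.1, this.2⟩, trivial⟩
  exact (((hC.prod hC).prod Set.countable_univ).preimage_of_injOn hφ.injOn).mono h1

theorem countable_TN {C : Set (At K)} (hC : C.Countable) : (TN C).Countable := by
  let φ : Tm K → Option (At K) × (ℕ × Bool) := fun f => match f with
    | .tx i v => (none, (i, v))
    | .tp B n => (some (At.co B), (n, false))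
  have hφ : Function.Injective φ := by
    intro f f' h
    cases f <;> cases f' <;> simp_all [φ]
  have h1 : TN C ⊆ φ ⁻¹' ((insert none (some '' C)) ×ˢ (Set.univ : Set (ℕ × Bool))) := by
    intro f hf
    cases f with
    | tx i v => exact ⟨Or.inl rfl, trivial⟩
    | tp B n => exact ⟨Or.inr ⟨_, hf B n rfl, rfl⟩, trivial⟩
  exact ((((hC.image _).insert _).prod Set.countable_univ).preimage_of_injOn hφ.injOn).mono h1

open Classical in
/-- a realisation, if there is one -/
noncomputable def wit (w : Set (Ft K)) (d : Set (Set (Tm K))) : Set (Ft K) :=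
  if h : ∃ p, Rlz w d p then h.choose else ∅

theorem wit_spec {w : Set (Ft K)} {d : Set (Set (Tm K))} (h : ∃ p, Rlz w d p) :
    Rlz w d (wit w d) := by
  rw [wit, dif_pos h]
  exact h.choose_spec

theorem wit_fin (w : Set (Ft K)) (d : Set (Set (Tm K))) : (wit w d).Finite := by
  by_cases h : ∃ p, Rlz w d p
  · exact (wit_spec h).1
  · rw [wit, dif_neg h]
    exact Set.finite_empty

/-- add the realisations of all configurations -/
def stp (C : Set (At K)) : Set (At K) :=
  C ∪ ⋃ w ∈ {w : Set (Ft K) | w.Finite ∧ w ⊆ NN C},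
    ⋃ d ∈ {d : Set (Set (Tm K)) | d.Finite ∧ d ⊆ {τ | τ.Finite ∧ τ ⊆ TN C}},
      ⋃ f ∈ wit w d, ats f

theorem countable_stp {C : Set (At K)} (hC : C.Countable) : (stp C).Countable := by
  refine hC.union ?_
  refine Set.Countable.biUnion (Set.countable_ofPred_finite_subset (countable_NN hC)) fun w _ => ?_
  refine Set.Countable.biUnion (Set.countable_ofPred_finite_subset
    (Set.countable_ofPred_finite_subset (countable_TN hC))) fun d _ => ?_
  exact Set.Countable.biUnion (wit_fin w d).countable fun f _ => (ats_fin f).countable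

theorem fin_sub_iUnion {α : Type} {S : ℕ → Set α} (hS : Monotone S) {t : Set α} (ht : t.Finite)
    (h : t ⊆ ⋃ n, S n) : ∃ n, t ⊆ S n := by
  induction t, ht using Set.Finite.induction_on with
  | empty => exact ⟨0, Set.empty_subset _⟩
  | @insert a s _ _ ih =>
    obtain ⟨n, hn⟩ := ih (fun x hx => h (Set.mem_insert_of_mem a hx))
    obtain ⟨m, hm⟩ := Set.mem_iUnion.1 (h (Set.mem_insert a s))
    refine ⟨max n m, ?_⟩
    rintro x (rfl | hx)
    · exact hS (le_max_right n m) hm
    · exact hS (le_max_left n m) (hn hx)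

/-- the iteration -/
def itr (C : Set (At K)) : ℕ → Set (At K)
  | 0 => C
  | n + 1 => stp (itr C n)

theorem exists_hull {C : Set (At K)} (hC : C.Countable) :
    ∃ C' : Set (At K), C'.Countable ∧ C ⊆ C' ∧ Good C' := by
  have hmono : Monotone (itr C) := monotone_nat_of_le_succ fun n => Set.subset_union_left
  refine ⟨⋃ n, itr C n, ?_, Set.subset_iUnion (itr C) 0, ?_⟩
  · refine Set.countable_iUnion fun n => ?_
    induction n with
    | zero => exact hC
    | succ n ih => exact countable_stp ih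
  · intro w hw hwC d hd hdC hreal
    have hN : ∀ f ∈ NN (⋃ n, itr C n), ∃ n, f ∈ NN (itr C n) := fun f hf =>
      fin_sub_iUnion hmono (ats_fin f) hf
    have hNm : Monotone fun n => NN (itr C n) := fun n m h f hf => hf.trans (hmono h)
    obtain ⟨n, hn⟩ := fin_sub_iUnion hNm hw (fun f hf => Set.mem_iUnion.2 (hN f (hwC hf)))
    have hTm : Monotone fun n => TN (itr C n) := fun n m h T hT B k hB => hmono h (hT B k hB)
    have hT : ∀ T ∈ TN (⋃ n, itr C n), ∃ n, T ∈ TN (itr C n) := by
      intro T hT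
      cases T with
      | tx i v =>
        refine ⟨0, fun B n h => ?_⟩
        injection h
      | tp B k =>
        obtain ⟨n, hn⟩ := Set.mem_iUnion.1 (hT B k rfl)
        refine ⟨n, fun B' k' h => ?_⟩
        injection h with h1 h2
        subst h1
        exact hn
    have hτ : ∀ τ ∈ d, ∃ n, τ.Finite ∧ τ ⊆ TN (itr C n) := by
      intro τ hτ
      obtain ⟨h1, h2⟩ := hdC τ hτ
      obtain ⟨n, hn⟩ := fin_sub_iUnion hTm h1 (fun T hT' => Set.mem_iUnion.2 (hT T (h2 hT')))
      exact ⟨n, h1, hn⟩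
    obtain ⟨m, hm⟩ := fin_sub_iUnion
      (S := fun n => {τ : Set (Tm K) | τ.Finite ∧ τ ⊆ TN (itr C n)})
      (fun n m h τ hτ => ⟨hτ.1, hτ.2.trans (hTm h)⟩) hd
      (fun τ hτ' => Set.mem_iUnion.2 (hτ τ hτ'))
    refine ⟨wit w d, wit_spec hreal, fun f hf => ?_⟩
    have h1 : ats f ⊆ itr C (max n m + 1) := by
      refine Set.Subset.trans ?_ Set.subset_union_right
      intro a ha
      refine Set.mem_biUnion (x := w) ⟨hw, hn.trans (hNm (le_max_left n m))⟩ ?_
      refine Set.mem_biUnion (x := d) ⟨hd, fun τ h => ⟨(hm h).1, (hm h).2.trans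
        (hTm (le_max_right n m))⟩⟩ ?_
      exact Set.mem_biUnion hf ha
    exact h1.trans (Set.subset_iUnion (itr C) _)

end Run7.h699.Delta
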