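import Mathlib
import Pool.Agent.Run7.h699.Delta.Hull

set_option autoImplicit false

/-!
# The countable chain condition and countable names
-/

namespace Run7.h699.Delta

open Pool.Agent.Helper669.Forcing

open MeasureTheory ProbabilityTheory in
/-- An uncountable family of finite functions from subsets of `I` to `ℕ` has two members which
agree on the intersection of their domains. (The proof is that of
`Pool.Agent.Helper161.Gam.exists_agree`.) -/
theorem exists_agree {I : Type} {Y : Type} (T : Y → Set I) (hT : ∀ y, (T y).Finite)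
    (c : Y → I → ℕ) (hY : ¬ Countable Y) :
    ∃ y y', y ≠ y' ∧ ∀ η ∈ T y, η ∈ T y' → c y η = c y' η := by
  classical
  by_contra hcon
  push Not at hcon
  apply hY
  let μ : Measure (I → ℕ) := Measure.infinitePi fun _ => poissonMeasure 1
  let E : Y → Set (I → ℕ) := fun y => Set.pi ((hT y).toFinset : Set I) fun η => {c y η}
  have hE : ∀ y, MeasurableSet (E y) := fun y =>
    MeasurableSet.pi (Finset.countable_toSet _) fun _ _ => measurableSet_singleton _
  have hpos : ∀ y, 0 < μ (E y) := by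
    intro y
    have : μ (E y) = ∏ η ∈ (hT y).toFinset, poissonMeasure 1 {c y η} :=
      Measure.infinitePi_pi _ fun _ _ => measurableSet_singleton _
    rw [this, pos_iff_ne_zero, Finset.prod_ne_zero_iff]
    intro η _
    rw [poissonMeasure_singleton]
    simp only [ne_eq, ENNReal.ofReal_eq_zero, not_le]
    positivity
  have hdisj : Pairwise (Function.onFun Disjoint E) := by
    intro y y' hne
    obtain ⟨η, h1, h2, h3⟩ := hcon y y' hne
    rw [Function.onFun, Set.disjoint_left]
    intro x hx hx'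
    have h4 := hx η (by simpa using h1)
    have h5 := hx' η (by simpa using h2)
    simp only [Set.mem_singleton_iff] at h4 h5
    exact h3 (h4.symm.trans h5)
  have := Measure.countable_meas_pos_of_disjoint_iUnion (μ := μ) hE hdisj
  have h2 : {i : Y | 0 < μ (E i)} = Set.univ := Set.eq_univ_of_forall hpos
  rw [h2] at this
  exact Set.countable_univ_iff.1 this

variable {K : Type}

theorem join_valid {p q : Set (Ft K)} (hp : Valid p) (hq : Valid q)
    (hh : ∀ a b n m, Ft.h a b n ∈ p → Ft.h a b m ∈ q → Ft.h a b n ∈ q)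
    (hx : ∀ e i v w, Ft.x e i v ∈ p → Ft.x e i w ∈ q → Ft.x e i v ∈ q)
    (hr : ∀ (B : Co K) n e t, Ft.rem B n t ∈ p → Ft.pro B n e ∈ q → Ft.rem B n t ∈ q)
    (hr' : ∀ (B : Co K) n e t, Ft.rem B n t ∈ q → Ft.pro B n e ∈ p → Ft.rem B n t ∈ p) :
    Valid (p ∪ q) := by
  refine ⟨?_, ?_, ?_, ?_⟩
  · rintro a b n m (h | h) (h' | h')
    · exact hp.hfun a b n m h h'
    · exact hq.hfun a b n m (hh a b n m h h') h'
    · exact hq.hfun a b n m h (hh a b m n h' h)
    · exact hq.hfun a b n m h h'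
  · rintro e i v w (h | h) (h' | h')
    · exact hp.xfun e i v w h h'
    · exact hq.xfun e i v w (hx e i v w h h') h'
    · exact hq.xfun e i v w h (hx e i w v h' h)
    · exact hq.xfun e i v w h h'
  · rintro B n e t (h | h) (h' | h')
    · obtain ⟨i, v, h1, h2⟩ := hp.avoid B n e t h h'
      exact ⟨i, v, h1, Or.inl h2⟩
    · obtain ⟨i, v, h1, h2⟩ := hp.avoid B n e t h (hr' B n e t h' h)
      exact ⟨i, v, h1, Or.inl h2⟩
    · obtain ⟨i, v, h1, h2⟩ := hq.avoid B n e t h (hr B n e t h' h)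
      exact ⟨i, v, h1, Or.inr h2⟩
    · obtain ⟨i, v, h1, h2⟩ := hq.avoid B n e t h h'
      exact ⟨i, v, h1, Or.inr h2⟩
  · rintro B n e (h | h)
    · obtain ⟨j, h2⟩ := hp.cert B n e h
      exact ⟨j, fun f hf => Or.inl (h2 f hf)⟩
    · obtain ⟨j, h2⟩ := hq.cert B n e h
      exact ⟨j, fun f hf => Or.inr (h2 f hf)⟩

/-- the countable part of a fact -/
def cpart : Ft K → ℕ × ℕ × Bool × List Bool
  | .h _ _ n => (0, n, false, [])
  | .x _ i v => (1, i, v, [])
  | .rem _ n t => (2, n, false, t)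
  | .pro _ n _ => (3, n, false, [])

theorem dat_fin (p : Cd K) (a : At K) : (cpart '' {f ∈ p.s | a ∈ ats f}).Finite :=
  (p.fin.subset fun _ h => h.1).image _

theorem ccc : CCC (Cd K) := by
  classical
  intro A hA
  by_contra hcon
  have hY : ¬ Countable A := fun h => hcon (Set.countable_coe_iff.1 h)
  obtain ⟨y, y', hne, hagree⟩ := exists_agree (I := At K) (Y := A)
    (fun b => ⋃ f ∈ (b : Cd K).s, ats f) (fun b => (b : Cd K).fin.biUnion fun f _ => ats_fin f)
    (fun b a => Encodable.encode (dat_fin (b : Cd K) a).toFinset) hY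
  have key : ∀ a, (∃ f ∈ (y : Cd K).s, a ∈ ats f) → (∃ f ∈ (y' : Cd K).s, a ∈ ats f) →
      cpart '' {f ∈ (y : Cd K).s | a ∈ ats f} = cpart '' {f ∈ (y' : Cd K).s | a ∈ ats f} := by
    rintro a ⟨f, hf, hf'⟩ ⟨g, hg, hg'⟩
    have h1 := Encodable.encode_injective (hagree a (Set.mem_biUnion hf hf')
      (Set.mem_biUnion hg hg'))
    have h2 : ((dat_fin (y : Cd K) a).toFinset : Set (ℕ × ℕ × Bool × List Bool)) =
        ((dat_fin (y' : Cd K) a).toFinset : Set (ℕ × ℕ × Bool × List Bool)) := by rw [h1]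
    simpa using h2
  have hv : Valid ((y : Cd K).s ∪ (y' : Cd K).s) := by
    refine join_valid (y : Cd K).val (y' : Cd K).val ?_ ?_ ?_ ?_
    · intro a b n m h h'
      have h1 := key (At.hh a b) ⟨_, h, by simp [ats]⟩ ⟨_, h', by simp [ats]⟩
      have h2 : cpart (Ft.h a b n) ∈ cpart '' {f ∈ (y' : Cd K).s | At.hh a b ∈ ats f} := by
        rw [← h1]
        exact ⟨_, ⟨h, by simp [ats]⟩, rfl⟩
      obtain ⟨f, ⟨hf, hf'⟩, hfe⟩ := h2
      cases f <;> simp_all [ats, cpart]
    · intro e i v w h h'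
      have h1 := key (At.pt e) ⟨_, h, by simp [ats]⟩ ⟨_, h', by simp [ats]⟩
      have h2 : cpart (Ft.x e i v) ∈ cpart '' {f ∈ (y' : Cd K).s | At.pt e ∈ ats f} := by
        rw [← h1]
        exact ⟨_, ⟨h, by simp [ats]⟩, rfl⟩
      obtain ⟨f, ⟨hf, hf'⟩, hfe⟩ := h2
      cases f <;> simp_all [ats, cpart]
    · intro B n e t h h'
      have h1 := key (At.co B) ⟨_, h, by simp [ats]⟩ ⟨_, h', by simp [ats]⟩
      have h2 : cpart (Ft.rem B n t) ∈ cpart '' {f ∈ (y' : Cd K).s | At.co B ∈ ats f} := by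
        rw [← h1]
        exact ⟨_, ⟨h, by simp [ats]⟩, rfl⟩
      obtain ⟨f, ⟨hf, hf'⟩, hfe⟩ := h2
      cases f <;> simp_all [ats, cpart]
    · intro B n e t h h'
      have h1 := key (At.co B) ⟨_, h', by simp [ats]⟩ ⟨_, h, by simp [ats]⟩
      have h2 : cpart (Ft.rem B n t) ∈ cpart '' {f ∈ (y : Cd K).s | At.co B ∈ ats f} := by
        rw [h1]
        exact ⟨_, ⟨h, by simp [ats]⟩, rfl⟩
      obtain ⟨f, ⟨hf, hf'⟩, hfe⟩ := h2
      cases f <;> simp_all [ats, cpart]
  exact hne (Subtype.ext (hA y y.2 y' y'.2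
    ⟨⟨_, (y : Cd K).fin.union (y' : Cd K).fin, hv⟩, Set.subset_union_left,
      Set.subset_union_right⟩))

/-- every set of conditions may be replaced by a countable one -/
theorem countable_name {P : Type} [Preorder P] (hP : CCC P) (N : Set P) :
    ∃ N' : Set P, N'.Countable ∧ (∀ r ∈ N', ∃ s ∈ N, r ≤ s) ∧ meets N' = meets N := by
  obtain ⟨B, hB⟩ := zorn_subset
    {B : Set P | B ⊆ {r | ∃ s ∈ N, r ≤ s} ∧ ∀ a ∈ B, ∀ b ∈ B, (∃ r, r ≤ a ∧ r ≤ b) → a = b} (by
      intro c hc hchain
      refine ⟨⋃₀ c, ⟨?_, ?_⟩, fun s hs => Set.subset_sUnion_of_mem hs⟩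
      · exact Set.sUnion_subset fun s hs => (hc hs).1
      · rintro a ⟨s, hs, has⟩ b ⟨t, ht, hbt⟩ hab
        rcases hchain.total hs ht with hst | hts
        · exact (hc ht).2 a (hst has) b hbt hab
        · exact (hc hs).2 a has b (hts hbt) hab)
  have hmax : ∀ d : P, (∃ s ∈ N, d ≤ s) → ∃ b ∈ B, ∃ r, r ≤ b ∧ r ≤ d := by
    intro d hd
    by_contra hcon
    push Not at hcon
    have hins : insert d B ⊆ B := by
      refine hB.le_of_ge (y := insert d B) ⟨?_, ?_⟩ (Set.subset_insert d B)
      · exact Set.insert_subset hd hB.prop.1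
      · rintro a ha b hb ⟨r, hra, hrb⟩
        rcases ha with rfl | ha
        · rcases hb with rfl | hb
          · rfl
          · exact absurd hra (hcon b hb r hrb)
        · rcases hb with rfl | hb
          · exact absurd hrb (hcon a ha r hra)
          · exact hB.prop.2 a ha b hb ⟨r, hra, hrb⟩
    exact hcon d (hins (Set.mem_insert d B)) d le_rfl le_rfl
  refine ⟨B, hP B hB.prop.2, hB.prop.1, ?_⟩
  ext p
  constructor
  · intro hp q hq
    obtain ⟨r, hr, b, hb, hrb⟩ := hp q hq
    obtain ⟨s, hs, hbs⟩ := hB.prop.1 hb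
    exact ⟨r, hr, s, hs, hrb.trans hbs⟩
  · intro hp q hq
    obtain ⟨r, hr, s, hs, hrs⟩ := hp q hq
    obtain ⟨b, hb, t, htb, htr⟩ := hmax r ⟨s, hs, hrs⟩
    exact ⟨t, htr.trans hr, b, hb, htb⟩

/-- every name of a subset of `K` has a code -/
theorem exists_code (Z : K → Set (Cd K)) :
    ∃ B : Co K, ∀ e, meets (Z e) =
      meets {r | ∃ j, ∀ i < len (B e j 0), B e j (i + 1) ∈ r.s} := by
  classical
  have h : ∀ e, ∃ g : ℕ → ℕ → Ft K,
      meets (Z e) = meets {r : Cd K | ∃ j, ∀ i < len (g j 0), g j (i + 1) ∈ r.s} := by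
    intro e
    obtain ⟨N', h1, -, h3⟩ := countable_name ccc (Z e)
    rcases N'.eq_empty_or_nonempty with rfl | hne
    · refine ⟨fun _ k => if k = 0 then Ft.x e 2 true else if k = 1 then Ft.x e 0 true else
        Ft.x e 0 false, ?_⟩
      rw [← h3]
      congr 1
      ext r
      simp only [Set.mem_empty_iff_false, false_iff]
      rintro ⟨j, hj⟩
      have h4 := hj 0 (by simp [len])
      have h5 := hj 1 (by simp [len])
      simp only [zero_add, one_ne_zero, if_false, if_true, Nat.reduceAdd, OfNat.ofNat_ne_zero,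
        OfNat.ofNat_ne_one] at h4 h5
      exact absurd (r.val.xfun e 0 _ _ h4 h5) (by simp)
    · obtain ⟨g, hg⟩ := h1.exists_eq_range hne
      have key : ∀ (j : ℕ) (r : Cd K), (∀ i < (g j).fin.toFinset.toList.length,
          (g j).fin.toFinset.toList.getD i (Ft.x e 0 true) ∈ r.s) ↔ r ≤ g j := by
        intro j r
        constructor
        · intro h f hf
          have hf' : f ∈ (g j).fin.toFinset.toList := by
            rw [Finset.mem_toList, Set.Finite.mem_toFinset]
            exact hf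
          obtain ⟨i, hi, hi'⟩ := List.getElem_of_mem hf'
          have := h i hi
          rwa [List.getD_eq_getElem _ _ hi, hi'] at this
        · intro h i hi
          rw [List.getD_eq_getElem _ _ hi]
          refine h ?_
          have := List.getElem_mem hi
          rwa [Finset.mem_toList, Set.Finite.mem_toFinset] at this
      refine ⟨fun j k => match k with
        | 0 => Ft.x e (g j).fin.toFinset.toList.length true
        | i + 1 => (g j).fin.toFinset.toList.getD i (Ft.x e 0 true), ?_⟩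
      rw [← h3]
      ext r
      constructor
      · intro hr q hq
        obtain ⟨r', hr', s, hs, hrs⟩ := hr q hq
        rw [hg] at hs
        obtain ⟨j, rfl⟩ := hs
        exact ⟨r', hr', r', ⟨j, (key j r').2 hrs⟩, le_rfl⟩
      · intro hr q hq
        obtain ⟨r', hr', s, ⟨j, hs⟩, hrs⟩ := hr q hq
        exact ⟨r', hr', g j, by rw [hg]; exact ⟨j, rfl⟩, hrs.trans ((key j s).1 hs)⟩
  choose B hB using h
  exact ⟨B, hB⟩

end Run7.h699.Delta
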