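import Mathlib
import Pool.Agent.Run7.h699.Delta.Ccc

set_option autoImplicit false

/-!
# The generic real numbers
-/

namespace Run7.h699.Delta

open Pool.Agent.Helper669.Forcing Run7.h699.Flip

/-! ### Partial sums -/

/-- `∑ i < n, 2 s(i) / 3 ^ (i + 1)` -/
def cs (s : ℕ → Bool) (n : ℕ) : ℚ := ∑ i ∈ Finset.range n, if s i = true then 2 / 3 ^ (i + 1) else 0

theorem cs_succ (s : ℕ → Bool) (n : ℕ) :
    cs s (n + 1) = cs s n + if s n = true then 2 / 3 ^ (n + 1) else 0 := by
  rw [cs, Finset.sum_range_succ, cs]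

theorem cs_congr {s s' : ℕ → Bool} {n : ℕ} (h : ∀ i < n, s i = s' i) : cs s n = cs s' n := by
  unfold cs
  exact Finset.sum_congr rfl fun i hi => by rw [h i (Finset.mem_range.1 hi)]

theorem cs_mono (s : ℕ → Bool) {n m : ℕ} (h : n ≤ m) : cs s n ≤ cs s m := by
  induction m, h using Nat.le_induction with
  | base => exact le_rfl
  | succ m _ ih =>
    rw [cs_succ]
    have : (0 : ℚ) ≤ if s m = true then 2 / 3 ^ (m + 1) else 0 := by
      split_ifs <;> positivity
    linarith

theorem cs_tail (s : ℕ → Bool) {n m : ℕ} (h : n ≤ m) : cs s m + 1 / 3 ^ m ≤ cs s n + 1 / 3 ^ n := by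
  induction m, h using Nat.le_induction with
  | base => exact le_rfl
  | succ m _ ih =>
    rw [cs_succ]
    have h1 : (if s m = true then (2 : ℚ) / 3 ^ (m + 1) else 0) ≤ 2 / 3 ^ (m + 1) := by
      split_ifs
      · exact le_rfl
      · positivity
    have h2 : (1 : ℚ) / 3 ^ m = 2 / 3 ^ (m + 1) + 1 / 3 ^ (m + 1) := by
      field_simp
      ring
    linarith

theorem pow_pos' (n : ℕ) : (0 : ℚ) < 1 / 3 ^ n := by positivity

theorem pow_anti {n m : ℕ} (h : n ≤ m) : (1 : ℚ) / 3 ^ m ≤ 1 / 3 ^ n :=
  one_div_le_one_div_of_le (by positivity) (pow_le_pow_right₀ (by norm_num) h)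

/-- the sequence given by a list -/
def ofL (t : List Bool) : ℕ → Bool := fun i => t.getD i false

theorem getElem?_eq {t : List Bool} {i : ℕ} {v : Bool} :
    t[i]? = some v ↔ i < t.length ∧ ofL t i = v := by
  unfold ofL
  constructor
  · intro h
    obtain ⟨h1, h2⟩ := List.getElem?_eq_some_iff.1 h
    refine ⟨h1, ?_⟩
    rw [List.getD_eq_getElem?_getD, h]
    rfl
  · rintro ⟨h1, h2⟩
    rw [List.getD_eq_getElem?_getD, List.getElem?_eq_getElem h1] at h2
    rw [List.getElem?_eq_getElem h1]
    simpa using h2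

/-- the list of the first values of a sequence -/
def toL (s : ℕ → Bool) (n : ℕ) : List Bool := (List.range n).map s

theorem length_toL (s : ℕ → Bool) (n : ℕ) : (toL s n).length = n := by simp [toL]

theorem ofL_toL (s : ℕ → Bool) {n i : ℕ} (h : i < n) : ofL (toL s n) i = s i := by
  simp [ofL, toL, List.getD_eq_getElem?_getD, h]

/-- the left end of the interval of the sequences which begin with `t` -/
def cv (t : List Bool) : ℚ := cs (ofL t) t.length

/-- an open interval around the sequences which begin with `t` -/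
def Iv (t : List Bool) : ℚ × ℚ :=
  (cv t - 1 / 2 * (1 / 3 ^ t.length), cv t + 1 / 3 ^ t.length + 1 / 2 * (1 / 3 ^ t.length))

theorem agree_of_mem {s u : ℕ → Bool} {n n1 : ℕ}
    (h1 : cs u n - 1 / 2 * (1 / 3 ^ n) < cs s n1)
    (h2 : cs s n1 + 1 / 3 ^ n1 < cs u n + 1 / 3 ^ n + 1 / 2 * (1 / 3 ^ n)) :
    ∀ i < n, s i = u i := by
  intro k
  induction k using Nat.strong_induction_on with
  | _ k ih =>
    intro hk
    by_contra hne
    have h3 : cs s k = cs u k := cs_congr fun i hi => ih i hi (hi.trans hk)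
    have h4 := cs_mono u (show k + 1 ≤ n from hk)
    have h5 := cs_tail u (show k + 1 ≤ n from hk)
    have h6 := pow_anti (show k + 1 ≤ n from hk)
    have h7 := pow_pos' n
    have h8 := pow_pos' (k + 1)
    have h9 : (2 : ℚ) / 3 ^ (k + 1) = 2 * (1 / 3 ^ (k + 1)) := by ring
    rw [cs_succ] at h4 h5
    cases hs : s k with
    | true =>
      have hu : u k = false := by
        cases hu : u k with
        | false => rfl
        | true => exact absurd (hs.trans hu.symm) hne
      rw [hu, if_neg (by simp)] at h4 h5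
      have h10 : cs s (k + 1) = cs s k + 2 / 3 ^ (k + 1) := by rw [cs_succ, hs, if_pos rfl]
      rcases Nat.lt_or_ge k n1 with h | h
      · have h11 := cs_mono s (show k + 1 ≤ n1 from h)
        have h12 := pow_pos' n1
        rw [h10, h9] at h11
        linarith
      · have h11 := cs_tail s (show n1 ≤ k + 1 by omega)
        rw [h10, h9] at h11
        linarith
    | false =>
      have hu : u k = true := by
        cases hu : u k with
        | true => rfl
        | false => exact absurd (hs.trans hu.symm) hne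
      rw [hu, if_pos rfl, h9] at h4 h5
      have h10 : cs s (k + 1) = cs s k := by rw [cs_succ, hs, if_neg (by simp), add_zero]
      rcases Nat.lt_or_ge k n1 with h | h
      · have h11 := cs_tail s (show k + 1 ≤ n1 from h)
        have h12 := pow_pos' n1
        rw [h10] at h11
        linarith
      · have h11 := cs_mono s (show n1 ≤ k + 1 by omega)
        rw [h10] at h11
        linarith

/-! ### Initial segments -/

variable {K : Type}

/-- the sequence `x e` begins with `t` -/
def Seg (r : Set (Ft K)) (e : K) (t : List Bool) : Prop :=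
  ∀ i < t.length, Ft.x e i (ofL t i) ∈ r

theorem Seg.mono {r r' : Set (Ft K)} {e : K} {t : List Bool} (h : Seg r e t) (hr : r ⊆ r') :
    Seg r' e t := fun i hi => hr (h i hi)

theorem seg_agree {r : Cd K} {e : K} {t t' : List Bool} (h : Seg r.s e t) (h' : Seg r.s e t')
    {i : ℕ} (hi : i < t.length) (hi' : i < t'.length) : ofL t i = ofL t' i :=
  r.val.xfun e i _ _ (h i hi) (h' i hi')

theorem seg_upper {r : Cd K} {e : K} {t t' : List Bool} (h : Seg r.s e t) (h' : Seg r.s e t') :
    cv t' ≤ cv t + 1 / 3 ^ t.length := by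
  have h7 := pow_pos' t.length
  have h8 := pow_pos' t'.length
  unfold cv
  rcases le_total t'.length t.length with hl | hl
  · rw [cs_congr (s' := ofL t) fun i hi => seg_agree h' h hi (hi.trans_le hl)]
    have := cs_mono (ofL t) hl
    linarith
  · have h1 := cs_tail (ofL t') hl
    rw [cs_congr (s := ofL t') (s' := ofL t) fun i hi => seg_agree h' h (hi.trans_le hl) hi] at h1
    linarith

theorem seg_le {r : Cd K} {e : K} {t t' : List Bool} (h : Seg r.s e t) (h' : Seg r.s e t')
    (hl : t'.length ≤ t.length) : cv t' ≤ cv t := by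
  unfold cv
  rw [cs_congr (s' := ofL t) fun i hi => seg_agree h' h hi (hi.trans_le hl)]
  exact cs_mono (ofL t) hl

/-! ### Extensions -/

/-- add facts about points -/
theorem exists_addx (p : Cd K) (F : Set (Ft K)) (hF : F.Finite)
    (hx : ∀ f ∈ F, ∃ e i v, f = Ft.x e i v)
    (hfun : ∀ e i v w, Ft.x e i v ∈ F → Ft.x e i w ∈ p.s ∪ F → v = w) :
    ∃ r : Cd K, r.s = p.s ∪ F := by
  refine ⟨⟨p.s ∪ F, p.fin.union hF, ⟨?_, ?_, ?_, ?_⟩⟩, rfl⟩
  · rintro a b n m (h | h) (h' | h')
    · exact p.val.hfun a b n m h h'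
    all_goals
      first
        | exact absurd (hx _ h) (by simp)
        | exact absurd (hx _ h') (by simp)
  · rintro e i v w (h | h) h'
    · rcases h' with h' | h'
      · exact p.val.xfun e i v w h h'
      · exact (hfun e i w v h' (Or.inl h)).symm
    · exact hfun e i v w h h'
  · rintro B n e t (h | h) (h' | h')
    · obtain ⟨i, v, h1, h2⟩ := p.val.avoid B n e t h h'
      exact ⟨i, v, h1, Or.inl h2⟩
    all_goals
      first
        | exact absurd (hx _ h) (by simp)
        | exact absurd (hx _ h') (by simp)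
  · rintro B n e (h | h)
    · obtain ⟨j, h2⟩ := p.val.cert B n e h
      exact ⟨j, fun f hf => Or.inl (h2 f hf)⟩
    · exact absurd (hx _ h) (by simp)

open Classical in
/-- a sequence which extends what `p` says about `x e` -/
noncomputable def vl (p : Cd K) (e : K) (i : ℕ) : Bool := decide (Ft.x e i true ∈ p.s)

theorem vl_eq {p : Cd K} {e : K} {i : ℕ} {v : Bool} (h : Ft.x e i v ∈ p.s) : v = vl p e i := by
  unfold vl
  cases v with
  | true => simp [h]
  | false =>
    have : Ft.x e i true ∉ p.s := fun h' => absurd (p.val.xfun e i _ _ h h') (by simp)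
    simp [this]

/-- decide an initial segment -/
theorem exists_seg (p : Cd K) (e : K) (n : ℕ) :
    ∃ r ≤ p, ∃ t : List Bool, t.length = n ∧ Seg r.s e t := by
  obtain ⟨r, hr⟩ := exists_addx p ((fun i => Ft.x e i (vl p e i)) '' Set.Iio n)
    ((Set.finite_Iio n).image _) (by
      rintro f ⟨i, -, rfl⟩
      exact ⟨e, i, _, rfl⟩) (by
      rintro e' i v w ⟨j, hj, h⟩ h'
      injection h with h1 h2 h3
      subst h1; subst h2; subst h3
      rcases h' with h' | ⟨j', hj', h'⟩
      · exact (vl_eq h').symm
      · injection h' with h1 h2 h3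
        subst h2
        exact h3)
  refine ⟨r, ?_, toL (vl p e) n, length_toL _ _, ?_⟩
  · rw [le_iff, hr]
    exact Set.subset_union_left
  · intro i hi
    rw [length_toL] at hi
    rw [ofL_toL _ hi, hr]
    exact Or.inr ⟨i, hi, rfl⟩

/-- the bound on the places mentioned in a condition -/
theorem exists_bound (p : Cd K) : ∃ m : ℕ, ∀ e i v, Ft.x e i v ∈ p.s → i < m := by
  have h : ((fun f : Ft K => match f with
    | .x _ i _ => i
    | _ => 0) '' p.s).Finite := p.fin.image _
  obtain ⟨m, hm⟩ := h.bddAbove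
  exact ⟨m + 1, fun e i v hf => Nat.lt_succ_of_le (hm ⟨_, hf, rfl⟩)⟩

/-- remove a neighbourhood of `x e` from `C B n` -/
theorem exists_rem (p : Cd K) (B : Co K) (n : ℕ) (e : K) (he : Ft.pro B n e ∉ p.s) :
    ∃ r ≤ p, ∃ t : List Bool, Seg r.s e t ∧ Ft.rem B n t ∈ r.s := by
  classical
  obtain ⟨m, hm⟩ := exists_bound p
  set s : ℕ → Bool := fun i => if i = m then true else vl p e i with hs
  have hQ : {e' | Ft.pro B n e' ∈ p.s}.Finite := by
    have : {e' | Ft.pro B n e' ∈ p.s} ⊆ (fun e' => Ft.pro B n e') ⁻¹' p.s := subset_rfl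
    refine (p.fin.preimage ?_).subset this
    intro a _ b _ h
    simp only at h
    injection h
  obtain ⟨r, hr⟩ := exists_addx p (((fun i => Ft.x e i (s i)) '' Set.Iic m) ∪
      ((fun e' => Ft.x e' m false) '' {e' | Ft.pro B n e' ∈ p.s}))
    (((Set.finite_Iic m).image _).union (hQ.image _)) (by
      rintro f (⟨i, -, rfl⟩ | ⟨e', -, rfl⟩)
      · exact ⟨e, i, _, rfl⟩
      · exact ⟨e', m, _, rfl⟩) (by
      have hne : ∀ e', Ft.pro B n e' ∈ p.s → e' ≠ e := by
        rintro e' h rfl
        exact he h
      rintro e' i v w (⟨j, hj, h⟩ | ⟨e'', he'', h⟩) h'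
      · injection h with h1 h2 h3
        subst h1; subst h2; subst h3
        rcases h' with h' | ⟨j', hj', h'⟩ | ⟨e'', he'', h'⟩
        · have : j ≠ m := (hm _ _ _ h').ne
          simp only [hs, this, if_false]
          exact (vl_eq h').symm
        · injection h' with h1 h2 h3
          subst h2
          exact h3
        · injection h' with h1 h2 h3
          exact absurd h1 (hne _ he'')
      · injection h with h1 h2 h3
        subst h1; subst h2; subst h3
        rcases h' with h' | ⟨j', hj', h'⟩ | ⟨e3, he3, h'⟩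
        · exact absurd (hm _ _ _ h') (lt_irrefl _)
        · injection h' with h1 h2 h3
          exact absurd h1.symm (hne _ he'')
        · injection h' with h1 h2 h3)
  have hrp : ∀ B' n' e', Ft.pro B' n' e' ∈ r.s → Ft.pro B' n' e' ∈ p.s := by
    intro B' n' e' h
    rw [hr] at h
    rcases h with h | ⟨i, -, h⟩ | ⟨e'', -, h⟩
    · exact h
    · exact absurd h (by simp)
    · exact absurd h (by simp)
  have hseg : Seg r.s e (toL s (m + 1)) := by
    intro i hi
    rw [length_toL] at hi
    rw [ofL_toL _ hi, hr]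
    exact Or.inr (Or.inl ⟨i, Nat.lt_succ_iff.1 hi, rfl⟩)
  refine ⟨⟨insert (Ft.rem B n (toL s (m + 1))) r.s, r.fin.insert _, ⟨?_, ?_, ?_, ?_⟩⟩, ?_,
    toL s (m + 1), hseg.mono (Set.subset_insert _ _), Set.mem_insert _ _⟩
  · rintro a b k l (h | h) (h' | h')
    · injection h
    · injection h
    · injection h'
    · exact r.val.hfun a b k l h h'
  · rintro e' i v w (h | h) (h' | h')
    · injection h
    · injection h
    · injection h'
    · exact r.val.xfun e' i v w h h'
  · rintro B' n' e' t (h | h) (h' | h')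
    · injection h
    · injection h
    · injection h' with h1 h2 h3
      subst h1; subst h2; subst h3
      refine ⟨m, true, ?_, Or.inr ?_⟩
      · rw [getElem?_eq, length_toL, ofL_toL _ (Nat.lt_succ_self m)]
        exact ⟨Nat.lt_succ_self m, by simp [hs]⟩
      · rw [hr]
        exact Or.inr (Or.inr ⟨e', hrp _ _ _ h, rfl⟩)
    · obtain ⟨i, v, h1, h2⟩ := r.val.avoid B' n' e' t h h'
      exact ⟨i, v, h1, Or.inr h2⟩
  · rintro B' n' e' (h | h)
    · injection h
    · obtain ⟨j, h2⟩ := r.val.cert B' n' e' h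
      exact ⟨j, fun f hf => Or.inr (h2 f hf)⟩
  · rw [le_iff]
    refine Set.Subset.trans ?_ (Set.subset_insert _ _)
    rw [hr]
    exact Set.subset_union_left

/-- put `x e` into some `C B n` -/
theorem exists_pro (p : Cd K) (B : Co K) (e : K) (h : ∃ j, ∀ i < len (B e j 0), B e j (i + 1) ∈ p.s) :
    ∃ r ≤ p, ∃ n, Ft.pro B n e ∈ r.s := by
  have h0 : ((fun f : Ft K => match f with
    | .rem _ n _ => n
    | _ => 0) '' p.s).Finite := p.fin.image _
  obtain ⟨m, hm⟩ := h0.bddAbove
  have hm' : ∀ t, Ft.rem B (m + 1) t ∉ p.s := by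
    intro t ht
    have : m + 1 ≤ m := hm ⟨_, ht, rfl⟩
    omega
  obtain ⟨j, hl⟩ := h
  refine ⟨⟨insert (Ft.pro B (m + 1) e) p.s, p.fin.insert _, ⟨?_, ?_, ?_, ?_⟩⟩,
    Set.subset_insert _ _, m + 1, Set.mem_insert _ _⟩
  · rintro a b k l (h | h) (h' | h')
    · injection h
    · injection h
    · injection h'
    · exact p.val.hfun a b k l h h'
  · rintro e' i v w (h | h) (h' | h')
    · injection h
    · injection h
    · injection h'
    · exact p.val.xfun e' i v w h h'
  · rintro B' n' e' t (h | h) (h' | h')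
    · injection h'
    · injection h with h1 h2 h3
      subst h1; subst h2; subst h3
      exact absurd h' (hm' t)
    · injection h'
    · obtain ⟨i, v, h1, h2⟩ := p.val.avoid B' n' e' t h h'
      exact ⟨i, v, h1, Or.inr h2⟩
  · rintro B' n' e' (h | h)
    · injection h with h1 h2 h3
      subst h1; subst h2; subst h3
      exact ⟨j, fun f hf => Or.inr (hl f hf)⟩
    · obtain ⟨j, h2⟩ := p.val.cert B' n' e' h
      exact ⟨j, fun f hf => Or.inr (h2 f hf)⟩

/-- decide `h (a, b)` -/
theorem exists_h (p : Cd K) (a b : K) (n : ℕ) (hn : ∀ m, Ft.h a b m ∉ p.s) :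
    ∃ r ≤ p, Ft.h a b n ∈ r.s := by
  refine ⟨⟨insert (Ft.h a b n) p.s, p.fin.insert _, ⟨?_, ?_, ?_, ?_⟩⟩,
    Set.subset_insert _ _, Set.mem_insert _ _⟩
  · rintro a' b' k l (h | h) (h' | h')
    · injection h with h1 h2 h3
      injection h' with h4 h5 h6
      rw [h3, h6]
    · injection h with h1 h2 h3
      subst h1; subst h2; subst h3
      exact absurd h' (hn _)
    · injection h' with h1 h2 h3
      subst h1; subst h2; subst h3
      exact absurd h (hn _)
    · exact p.val.hfun a' b' k l h h'
  · rintro e' i v w (h | h) (h' | h')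
    · injection h
    · injection h
    · injection h'
    · exact p.val.xfun e' i v w h h'
  · rintro B' n' e' t (h | h) (h' | h')
    · injection h'
    · injection h
    · injection h'
    · obtain ⟨i, v, h1, h2⟩ := p.val.avoid B' n' e' t h h'
      exact ⟨i, v, h1, Or.inr h2⟩
  · rintro B' n' e' (h | h)
    · injection h
    · obtain ⟨j, h2⟩ := p.val.cert B' n' e' h
      exact ⟨j, fun f hf => Or.inr (h2 f hf)⟩

end Run7.h699.Delta
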