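import Mathlib
import Pool.Agent.Run7.h699.Delta.Real

set_option autoImplicit false

/-!
# The names of the generic real numbers
-/

namespace Run7.h699.Delta

open Pool.Agent.Helper669.Forcing

variable {K : Type}

/-- the generic real numbers -/
def X (e : K) : RName (Cd K) := fun q => {r | ∃ t, Seg r.s e t ∧ q < cv t}

theorem down_X (e : K) (q : ℚ) : Down (X e q) := by
  rintro p ⟨t, ht, hq⟩ r hr
  exact ⟨t, ht.mono hr, hq⟩

theorem of_meets {e : K} {q : ℚ} {p : Cd K} (h : p ∈ meets (X e q)) :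
    ∃ r ≤ p, ∃ t, Seg r.s e t ∧ q < cv t := by
  obtain ⟨r, hr, h'⟩ := exists_of_meets (down_X e q) h
  exact ⟨r, hr, h'⟩

theorem mem_InI {e : K} {r : Cd K} {t : List Bool} {I : ℚ × ℚ} (h : Seg r.s e t)
    (h1 : I.1 < cv t) (h2 : cv t + 1 / 3 ^ t.length < I.2) : r ∈ InI (X e) I := by
  refine ⟨meets_of_mem ⟨t, h, h1⟩, mem_fex_of_mem (cv t + 1 / 3 ^ t.length)
    (down_fand (down_fground _) (down_fnot _)) ⟨h2, ?_⟩⟩
  intro q hq hc
  obtain ⟨r', hr', t', ht', hlt⟩ := of_meets hc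
  have := seg_upper (r := r') (h.mono (hr'.trans hq)) ht'
  exact absurd hlt (not_lt.2 this)

theorem down_InI (R : RName (Cd K)) (I : ℚ × ℚ) : Down (InI R I) :=
  down_fand (down_meets _) (down_fex _)

theorem exists_small (ε : ℚ) (hε : 0 < ε) : ∃ n : ℕ, (1 : ℚ) / 3 ^ n < ε := by
  obtain ⟨n, hn⟩ := exists_pow_lt_of_lt_one hε (show (1 / 3 : ℚ) < 1 by norm_num)
  exact ⟨n, by rwa [one_div_pow] at hn⟩

theorem of_InI {e : K} {r : Cd K} {I : ℚ × ℚ} (h : r ∈ InI (X e) I) :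
    ∃ r' ≤ r, ∃ t, Seg r'.s e t ∧ I.1 < cv t ∧ cv t + 1 / 3 ^ t.length < I.2 := by
  obtain ⟨r1, hr1, t1, ht1, hlt⟩ := of_meets h.1
  obtain ⟨r2, hr2, c, hc, hc'⟩ := mem_fex.1 h.2 r1 hr1
  have hc : c < I.2 := hc
  obtain ⟨n, hn⟩ := exists_small (I.2 - c) (sub_pos.2 hc)
  obtain ⟨r3, hr3, t, hl, ht⟩ := exists_seg r2 e (max t1.length n)
  refine ⟨r3, (hr3.trans hr2).trans hr1, t, ht, ?_, ?_⟩
  · have h1 := seg_le (r := r3) ht (ht1.mono (hr3.trans hr2)) (hl ▸ le_max_left _ _)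
    exact hlt.trans_le h1
  · have h1 : cv t ≤ c := by
      by_contra hcon
      exact hc' r3 hr3 (meets_of_mem ⟨t, ht, not_le.1 hcon⟩)
    have h2 : (1 : ℚ) / 3 ^ t.length ≤ 1 / 3 ^ n := pow_anti (hl ▸ le_max_right _ _)
    linarith

theorem len_le {x y : ℚ} {n n1 : ℕ} (h1 : x - 1 / 2 * (1 / 3 ^ n) < y)
    (h2 : y + 1 / 3 ^ n1 < x + 1 / 3 ^ n + 1 / 2 * (1 / 3 ^ n)) : n ≤ n1 := by
  by_contra hcon
  obtain ⟨k, rfl⟩ : ∃ k, n = k + 1 := ⟨n - 1, by omega⟩
  have h3 : (1 : ℚ) / 3 ^ k ≤ 1 / 3 ^ n1 := pow_anti (by omega)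
  have h4 : (1 : ℚ) / 3 ^ k = 3 * (1 / 3 ^ (k + 1)) := by
    field_simp
    ring
  have h5 := pow_pos' (k + 1)
  linarith

theorem mem_Iv {e : K} {r : Cd K} {t : List Bool} (h : Seg r.s e t) : r ∈ InI (X e) (Iv t) := by
  have h5 := pow_pos' t.length
  refine mem_InI h ?_ ?_
  · show cv t - 1 / 2 * (1 / 3 ^ t.length) < cv t
    linarith
  · show cv t + 1 / 3 ^ t.length < cv t + 1 / 3 ^ t.length + 1 / 2 * (1 / 3 ^ t.length)
    linarith

theorem of_Iv {e : K} {r : Cd K} {t : List Bool} (h : r ∈ InI (X e) (Iv t)) :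
    ∃ r' ≤ r, Seg r'.s e t := by
  obtain ⟨r', hr', t', ht', h1, h2⟩ := of_InI h
  refine ⟨r', hr', fun i hi => ?_⟩
  have h3 := agree_of_mem (s := ofL t') (u := ofL t) (n := t.length) (n1 := t'.length) h1 h2 i hi
  have h4 : t.length ≤ t'.length := len_le h1 h2
  rw [← h3]
  exact ht' i (hi.trans_le h4)

/-! ### They are real numbers -/

theorem isReal (e : K) (p : Cd K) : p ∈ IsReal (X e) := by
  have h0 : ∀ r : Cd K, Seg r.s e [] := by
    intro r i hi
    simp at hi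
  have h1 : cv [] = 0 := by simp [cv, cs]
  refine ⟨⟨mem_fex_of_mem (-1) (down_meets _) (meets_of_mem ⟨[], h0 p, by rw [h1]; norm_num⟩),
    mem_fex_of_mem 1 (down_fnot _) ?_⟩, ?_, ?_⟩
  · intro q hq hm
    obtain ⟨r, hr, t, ht, hlt⟩ := of_meets hm
    have h2 := seg_upper (r := r) (h0 r) ht
    rw [h1] at h2
    simp only [List.length_nil, pow_zero, div_one, zero_add] at h2
    exact absurd hlt (not_lt.2 h2)
  · intro q q'
    refine mem_fimp.2 fun r hr h => ⟨r, le_rfl, ?_⟩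
    have h2 : q < q' := h.1
    intro r1 hr1
    obtain ⟨r2, hr2, s, ⟨t, ht, hlt⟩, hs⟩ := h.2 r1 hr1
    exact ⟨r2, hr2, s, ⟨t, ht, h2.trans hlt⟩, hs⟩
  · intro q
    refine mem_fimp.2 fun r hr h => ?_
    obtain ⟨r1, hr1, t, ht, hlt⟩ := of_meets h
    obtain ⟨q', h2, h3⟩ := exists_between hlt
    exact ⟨r1, hr1, mem_fex_of_mem q' (down_fand (down_fground _) (down_meets _))
      ⟨h2, meets_of_mem ⟨t, ht, h3⟩⟩⟩

theorem sep {s u : ℕ → Bool} {n : ℕ} (h : ∃ i < n, s i ≠ u i) :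
    cs u n + 1 / 3 ^ n < cs s n ∨ cs s n + 1 / 3 ^ n < cs u n := by
  classical
  obtain ⟨hk, hne⟩ := Nat.find_spec h
  have hmin : ∀ i < Nat.find h, s i = u i := by
    intro i hi
    by_contra hcon
    exact Nat.find_min h hi ⟨hi.trans hk, hcon⟩
  set k := Nat.find h with hkdef
  have h3 : cs s k = cs u k := cs_congr hmin
  have h4 := cs_mono u (show k + 1 ≤ n from hk)
  have h5 := cs_tail u (show k + 1 ≤ n from hk)
  have h6 := cs_mono s (show k + 1 ≤ n from hk)
  have h7 := cs_tail s (show k + 1 ≤ n from hk)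
  have h8 := pow_pos' (k + 1)
  have h9 : (2 : ℚ) / 3 ^ (k + 1) = 2 * (1 / 3 ^ (k + 1)) := by ring
  rw [cs_succ] at h4 h5 h6 h7
  cases hs : s k with
  | true =>
    have hu : u k = false := by
      cases hu : u k with
      | false => rfl
      | true => exact absurd (hs.trans hu.symm) hne
    rw [hu, if_neg (by simp)] at h4 h5
    rw [hs, if_pos rfl, h9] at h6 h7
    left
    linarith
  | false =>
    have hu : u k = true := by
      cases hu : u k with
      | true => rfl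
      | false => exact absurd (hs.trans hu.symm) hne
    rw [hu, if_pos rfl, h9] at h4 h5
    rw [hs, if_neg (by simp)] at h6 h7
    right
    linarith

theorem not_imp {e e' : K} {r : Cd K} {t t' : List Bool} (h : Seg r.s e t) (h' : Seg r.s e' t')
    (hlt : cv t' + 1 / 3 ^ t'.length < cv t) :
    r ∉ fimp (meets (X e (cv t' + 1 / 3 ^ t'.length))) (meets (X e' (cv t' + 1 / 3 ^ t'.length))) := by
  intro hcon
  obtain ⟨r1, hr1, h1⟩ := mem_fimp.1 hcon r le_rfl (meets_of_mem ⟨t, h, hlt⟩)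
  obtain ⟨r2, hr2, t2, ht2, h2⟩ := of_meets h1
  have := seg_upper (r := r2) (h'.mono (hr2.trans hr1)) ht2
  exact absurd h2 (not_lt.2 this)

theorem realNe {e e' : K} (hne : e ≠ e') (p : Cd K) : p ∈ RealNe (X e) (X e') := by
  intro r hr hcon
  obtain ⟨m, hm⟩ := exists_bound r
  obtain ⟨r1, hr1⟩ := exists_addx r {Ft.x e m true, Ft.x e' m false} (by simp) (by
      rintro f (rfl | rfl)
      · exact ⟨e, m, true, rfl⟩
      · exact ⟨e', m, false, rfl⟩) (by
      rintro a i v w (h | h) (h' | h' | h')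
      · injection h with h1 h2 h3
        subst h1; subst h2
        exact absurd (hm _ _ _ h') (lt_irrefl _)
      · injection h with h1 h2 h3
        injection h' with h4 h5 h6
        rw [h3, h6]
      · injection h with h1 h2 h3
        injection h' with h4 h5 h6
        exact absurd (h1.symm.trans h4) hne
      · injection h with h1 h2 h3
        subst h1; subst h2
        exact absurd (hm _ _ _ h') (lt_irrefl _)
      · injection h with h1 h2 h3
        injection h' with h4 h5 h6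
        exact absurd (h4.symm.trans h1) hne
      · injection h with h1 h2 h3
        injection h' with h4 h5 h6
        rw [h3, h6])
  have hr1' : r1 ≤ r := by
    rw [le_iff, hr1]
    exact Set.subset_union_left
  obtain ⟨r2, hr2, t, hl, ht⟩ := exists_seg r1 e (m + 1)
  obtain ⟨r3, hr3, t', hl', ht'⟩ := exists_seg r2 e' (m + 1)
  have h1 : Ft.x e m true ∈ r3.s := (hr3.trans hr2) (by rw [hr1]; exact Or.inr (by simp))
  have h2 : Ft.x e' m false ∈ r3.s := (hr3.trans hr2) (by rw [hr1]; exact Or.inr (by simp))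
  have h3 : ofL t m = true := r3.val.xfun e m _ _ (hr3 (ht m (by omega))) h1
  have h4 : ofL t' m = false := r3.val.xfun e' m _ _ (ht' m (by omega)) h2
  have h5 := sep (s := ofL t) (u := ofL t') (n := m + 1) ⟨m, Nat.lt_succ_self m, by simp [h3, h4]⟩
  have hcon' : ∀ q, r3 ∈ fand (fimp (meets (X e q)) (meets (X e' q)))
      (fimp (meets (X e' q)) (meets (X e q))) := fun q =>
    down_fand (down_fimp _ _) (down_fimp _ _) r (hcon q) r3 ((hr3.trans hr2).trans hr1')
  rcases h5 with h5 | h5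
  · refine not_imp (ht.mono hr3) ht' ?_ (hcon' _).1
    rw [cv, cv, hl, hl']
    exact h5
  · refine not_imp ht' (ht.mono hr3) ?_ (hcon' _).2
    rw [cv, cv, hl, hl']
    exact h5

end Run7.h699.Delta
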