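import Mathlib
import Pool.Agent.Run7.h699.Delta.Name

set_option autoImplicit false

/-!
# The set of the generic real numbers is a `Q`-set and a `Δ`-set
-/

namespace Run7.h699.Delta

open Pool.Agent.Helper669.Forcing

variable {K : Type}

/-- the code of a name -/
def Hit (B : Co K) (e : K) : Set (Cd K) := {r | ∃ j, ∀ i < len (B e j 0), B e j (i + 1) ∈ r.s}

theorem down_hit (B : Co K) (e : K) : Down (Hit B e) := by
  rintro p ⟨j, h2⟩ r hr
  exact ⟨j, fun f hf => hr (h2 f hf)⟩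

theorem hit_of_pro {B : Co K} {e : K} {n : ℕ} {p : Cd K} (h : Ft.pro B n e ∈ p.s) :
    p ∈ Hit B e := p.val.cert B n e h

theorem not_pro_rem {B : Co K} {e : K} {n : ℕ} {p : Cd K} {t : List Bool}
    (h : Ft.pro B n e ∈ p.s) (h' : Ft.rem B n t ∈ p.s) (hs : Seg p.s e t) : False := by
  obtain ⟨i, v, h1, h2⟩ := p.val.avoid B n e t h h'
  obtain ⟨h3, h4⟩ := getElem?_eq.1 h1
  have h5 := p.val.xfun e i _ _ h2 (hs i h3)
  rw [h4] at h5
  cases v <;> simp at h5

theorem down_InOpen (R : RName (Cd K)) (U : ℚ × ℚ → Set (Cd K)) : Down (InOpen R U) := down_fex _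

theorem isQSet (p : Cd K) : p ∈ IsQSet (X (K := K)) := by
  intro Z
  obtain ⟨B, hB⟩ := exists_code fun e => fnot (meets (Z e))
  refine mem_fex_of_mem (fun n I => {r : Cd K | ∃ t, I = Iv t ∧ Ft.rem B n t ∈ r.s})
    (down_fall fun e => down_fand (down_fimp _ _) (down_fimp _ _)) ?_
  intro e
  constructor
  · refine mem_fimp.2 fun r hr h => ⟨r, le_rfl, ?_⟩
    intro n
    refine mem_fex.2 fun q hq => ?_
    have hno : Ft.pro B n e ∉ q.s := by
      intro hcon
      have h1 : q ∈ meets (fnot (meets (Z e))) := by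
        rw [hB e]
        exact meets_of_mem (hit_of_pro hcon)
      obtain ⟨q', hq', h2⟩ := exists_of_meets (down_fnot _) h1
      exact h2 q' le_rfl (down_meets _ r h q' (hq'.trans hq))
    obtain ⟨q1, hq1, t, h1, h2⟩ := exists_rem q B n e hno
    exact ⟨q1, hq1, Iv t, meets_of_mem ⟨t, rfl, h2⟩, mem_Iv h1⟩
  · refine mem_fimp.2 fun r hr h => ?_
    by_contra hcon
    push Not at hcon
    have h1 : r ∈ meets (fnot (meets (Z e))) := meets_of_mem hcon
    rw [hB e] at h1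
    obtain ⟨q, hq, h2⟩ := exists_of_meets (down_hit B e) h1
    obtain ⟨q1, hq1, n, h3⟩ := exists_pro q B e h2
    obtain ⟨q2, hq2, I, h4, h5⟩ := mem_fex.1 (h n) q1 (hq1.trans hq)
    obtain ⟨q3, hq3, s, ⟨t, rfl, h6⟩, hs⟩ := h4 q2 le_rfl
    obtain ⟨q4, hq4, h7⟩ := of_Iv (down_InI _ _ q2 h5 q3 hq3)
    exact not_pro_rem (((hq4.trans hq3).trans hq2) h3) ((hq4.trans hs) h6) h7

/-- `t'` is an initial segment of `t` -/
def Pfx (t' t : List Bool) : Prop := t'.length ≤ t.length ∧ ∀ i < t'.length, ofL t' i = ofL t i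

theorem Seg.pfx {s : Set (Ft K)} {e : K} {t t' : List Bool} (h : Seg s e t) (h' : Pfx t' t) :
    Seg s e t' := fun i hi => by
  rw [h'.2 i hi]
  exact h i (hi.trans_le h'.1)

theorem Pfx.trans {t t' t'' : List Bool} (h : Pfx t t') (h' : Pfx t' t'') : Pfx t t'' :=
  ⟨h.1.trans h'.1, fun i hi => (h.2 i hi).trans (h'.2 i (hi.trans_le h.1))⟩

theorem pfx_of_seg {r : Cd K} {e : K} {t t' : List Bool} (h : Seg r.s e t) (h' : Seg r.s e t')
    (hl : t.length ≤ t'.length) : Pfx t t' :=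
  ⟨hl, fun _ hi => seg_agree h h' hi (hi.trans_le hl)⟩

theorem exists_rems (e : K) (A : Finset (Co K × ℕ)) (p : Cd K)
    (hA : ∀ a ∈ A, ∀ q ≤ p, Ft.pro a.1 a.2 e ∉ q.s) :
    ∃ r ≤ p, ∃ t : List Bool, Seg r.s e t ∧ ∀ a ∈ A, ∃ t', Pfx t' t ∧ Ft.rem a.1 a.2 t' ∈ r.s := by
  classical
  induction A using Finset.induction_on with
  | empty =>
    refine ⟨p, le_rfl, [], ?_, by simp⟩
    intro i hi
    simp at hi
  | insert a A _ ih =>
    obtain ⟨r1, hr1, t1, h1, h2⟩ := ih fun b hb => hA b (Finset.mem_insert_of_mem hb)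
    obtain ⟨r2, hr2, t2, h3, h4⟩ := exists_rem r1 a.1 a.2 e (hA a (Finset.mem_insert_self _ _) r1 hr1)
    obtain ⟨r3, hr3, t, hl, h5⟩ := exists_seg r2 e (max t1.length t2.length)
    refine ⟨r3, (hr3.trans hr2).trans hr1, t, h5, ?_⟩
    intro b hb
    rcases Finset.mem_insert.1 hb with rfl | hb
    · exact ⟨t2, pfx_of_seg (h3.mono hr3) h5 (hl ▸ le_max_right _ _), hr3 h4⟩
    · obtain ⟨t', h6, h7⟩ := h2 b hb
      exact ⟨t', h6.trans (pfx_of_seg (h1.mono (hr3.trans hr2)) h5 (hl ▸ le_max_left _ _)),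
        (hr3.trans hr2) h7⟩

theorem isDeltaSet (p : Cd K) : p ∈ IsDeltaSet (X (K := K)) := by
  classical
  intro D
  refine mem_fimp.2 fun q hq hD => ⟨q, le_rfl, ?_⟩
  choose B hB using fun k => exists_code (D k)
  refine mem_fex_of_mem (fun n I => {r : Cd K | ∃ t, I = Iv t ∧
      ∀ k < n, ∀ j < n, ∃ t', Pfx t' t ∧ Ft.rem (B k) j t' ∈ r.s})
    (down_fand (down_fall fun _ => down_fall fun _ => down_fimp _ _)
      (down_fall fun _ => down_fex _)) ⟨?_, ?_⟩
  · intro n e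
    refine mem_fimp.2 fun r hr h => ⟨r, le_rfl, mem_fex.2 fun r1 hr1 => ?_⟩
    obtain ⟨r2, hr2, t, h1, h2⟩ := exists_rems e
      (((Finset.range n) ×ˢ (Finset.range n)).image fun a => (B a.1, a.2)) r1 (by
        intro a ha q1 hq1 hcon
        obtain ⟨⟨k, j⟩, hkj, rfl⟩ := Finset.mem_image.1 ha
        have hk : k < n := Finset.mem_range.1 (Finset.mem_product.1 hkj).1
        have h1 : q1 ∈ meets (D k e) := by
          rw [hB k e]
          exact meets_of_mem (hit_of_pro hcon)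
        have h2 : q1 ∈ meets (D n e) := down_meets _ r h q1 (hq1.trans hr1)
        obtain ⟨q2, _, h3⟩ := mem_fimp.1 (hD.2 e n k) q1 ((hq1.trans hr1).trans hr) ⟨h2, h1⟩
        have h4 : n = k := h3
        omega)
    refine ⟨r2, hr2, Iv t, meets_of_mem ⟨t, rfl, ?_⟩, mem_Iv h1⟩
    intro k hk j hj
    exact h2 (B k, j) (Finset.mem_image.2 ⟨(k, j), Finset.mem_product.2
      ⟨Finset.mem_range.2 hk, Finset.mem_range.2 hj⟩, rfl⟩)
  · intro e
    refine mem_fex.2 fun r hr => ?_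
    obtain ⟨r1, hr1, k, h1⟩ := mem_fex.1 (hD.1 e) r hr
    rw [hB k e] at h1
    obtain ⟨r2, hr2, h2⟩ := exists_of_meets (down_hit (B k) e) h1
    obtain ⟨r3, hr3, j, h3⟩ := exists_pro r2 (B k) e h2
    refine ⟨r3, (hr3.trans hr2).trans hr1, max k j + 1, ?_⟩
    intro n hn r4 hr4 hcon
    obtain ⟨r5, hr5, I, h4, h5⟩ := mem_fex.1 hcon r4 le_rfl
    obtain ⟨r6, hr6, s, ⟨t, rfl, h6⟩, hs⟩ := h4 r5 le_rfl
    obtain ⟨r7, hr7, h7⟩ := of_Iv (down_InI _ _ r5 h5 r6 hr6)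
    have hk : k < n := by
      have := le_max_left k j
      omega
    have hj : j < n := by
      have := le_max_right k j
      omega
    obtain ⟨t', h8, h9⟩ := h6 k hk j hj
    exact not_pro_rem ((((hr7.trans hr6).trans hr5).trans hr4) h3) ((hr7.trans hs) h9) (h7.pfx h8)

end Run7.h699.Delta
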