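import Mathlib
import Pool.Agent.Run7.h699.Delta.QSet

set_option autoImplicit false

/-!
# The square is not a `Δ`-set
-/

namespace Run7.h699.Delta

open Pool.Agent.Helper669.Forcing Cardinal

variable {K : Type}

theorem exists_free (hK : aleph 2 ≤ #K) (T : K → Set (K × K)) (hT : ∀ e, (T e).Countable) :
    ∃ a b, a ≠ b ∧ (a, b) ∉ T a ∧ (a, b) ∉ T b := by
  have h12 : aleph 1 < aleph 2 := aleph_lt_aleph.2 (by norm_num)
  obtain ⟨S, hS⟩ := le_mk_iff_exists_set.1 (h12.le.trans hK)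
  have h1 : #(S ∪ ⋃ b ∈ S, {a | (a, b) ∈ T b} : Set K) ≤ aleph 1 := by
    have hal : aleph0 ≤ aleph 1 := aleph0_le_aleph 1
    refine (mk_union_le _ _).trans ?_
    refine (add_le_add hS.le ?_).trans (add_eq_self hal).le
    refine (mk_biUnion_le _ _).trans ?_
    rw [hS]
    refine (mul_le_mul_right ?_ _).trans (mul_eq_self hal).le
    refine ciSup_le' fun b => ?_
    refine le_trans ?_ hal
    refine (Set.Countable.preimage_of_injOn (hT b) (f := fun a => (a, (b : K))) ?_).le_aleph0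
    intro x _ y _ h
    exact (Prod.ext_iff.1 h).1
  obtain ⟨a, ha⟩ : ∃ a, a ∉ (S ∪ ⋃ b ∈ S, {a | (a, b) ∈ T b} : Set K) := by
    by_contra hcon
    push Not at hcon
    rw [Set.eq_univ_of_forall hcon, mk_univ] at h1
    exact absurd (hK.trans h1) (not_le.2 h12)
  obtain ⟨b, hb, hb'⟩ : ∃ b ∈ S, (a, b) ∉ T a := by
    by_contra hcon
    push Not at hcon
    have h2 : S.Countable := by
      refine (Set.Countable.preimage_of_injOn (hT a) (f := fun b => (a, b)) ?_).mono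
        fun b hb => hcon b hb
      intro x _ y _ h
      exact (Prod.ext_iff.1 h).2
    have h3 := h2.le_aleph0
    rw [hS] at h3
    exact absurd h3 (not_le.2 aleph0_lt_aleph_one)
  refine ⟨a, b, ?_, hb', fun h => ha (Or.inr (Set.mem_biUnion hb h))⟩
  rintro rfl
  exact ha (Or.inl hb)

/-- the partition of the square -/
def DD (n : ℕ) (e : K × K) : Set (Cd K) := {r | Ft.h e.1 e.2 n ∈ r.s}

theorem isPartition (p : Cd K) : p ∈ IsPartition (DD (K := K)) := by
  refine ⟨fun t => mem_fex.2 fun q _ => ?_, fun t n m => mem_fimp.2 fun q _ h => ?_⟩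
  · by_cases h : ∃ n, Ft.h t.1 t.2 n ∈ q.s
    · obtain ⟨n, hn⟩ := h
      exact ⟨q, le_rfl, n, meets_of_mem hn⟩
    · push Not at h
      obtain ⟨r, hr, h'⟩ := exists_h q t.1 t.2 0 h
      exact ⟨r, hr, 0, meets_of_mem h'⟩
  · obtain ⟨r, hr, s, hs, hrs⟩ := h.1 q le_rfl
    obtain ⟨r', hr', s', hs', hrs'⟩ := h.2 r hr
    exact ⟨q, le_rfl, r'.val.hfun _ _ _ _ ((hr'.trans hrs) hs) (hrs' hs')⟩

/-- the facts about points of `A` in `W` -/
def xf (A : Set K) (W : K → Set (Ft K)) : Set (Ft K) :=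
  {f | ∃ e i v, f = Ft.x e i v ∧ e ∈ A ∧ Ft.x e i v ∈ W e}

theorem down_InOpen2 (R S : RName (Cd K)) (U : (ℚ × ℚ) × (ℚ × ℚ) → Set (Cd K)) :
    Down (InOpen2 R S U) := down_fex _

/-- the glued condition -/
theorem exists_glue {b : Set (Ft K)} {A : Set K} {W : K → Set (Ft K)} (w : Set (Ft K))
    (hw : w.Finite) (hWw : ∀ e ∈ A, W e ⊆ w) (hbf : b.Finite)
    (hb : ∀ a c n m, Ft.h a c n ∈ b → Ft.h a c m ∈ b → n = m)
    (hW : ∀ e, Valid (W e))
    (hx : ∀ e i v, Ft.x e i v ∈ b → Ft.x e i v ∈ W e)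
    (hp : ∀ (B : Co K) n e, Ft.pro B n e ∈ b → e ∈ A ∧ Ft.pro B n e ∈ W e)
    (hr : ∀ (B : Co K) n t e, Ft.rem B n t ∈ b → Ft.rem B n t ∈ W e)
    (hc : ∀ (B : Co K) n e, Ft.pro B n e ∈ b → ∃ j, ∀ i < len (B e j 0), B e j (i + 1) ∈ b) :
    ∃ r : Cd K, r.s = b ∪ xf A W := by
  refine ⟨⟨b ∪ xf A W, hbf.union (hw.subset ?_), glue hb hW hx hp hr hc⟩, rfl⟩
  rintro f ⟨e, i, v, rfl, he, h⟩
  exact hWw e he h

theorem cert_union {p q : Cd K} (B : Co K) (n : ℕ) (e : K) (h : Ft.pro B n e ∈ p.s ∪ q.s) :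
    ∃ j, ∀ i < len (B e j 0), B e j (i + 1) ∈ p.s ∪ q.s := by
  rcases h with h | h
  · obtain ⟨j, h2⟩ := p.val.cert B n e h
    exact ⟨j, fun f hf => Or.inl (h2 f hf)⟩
  · obtain ⟨j, h2⟩ := q.val.cert B n e h
    exact ⟨j, fun f hf => Or.inr (h2 f hf)⟩

/-- the amalgam as a condition -/
theorem exists_amal {C : Set (At K)} (p q : Cd K) {g : K → K} (hqC : q.s ⊆ NN C)
    (h : Red C p.s q.s g) : ∃ r : Cd K, r.s = amal C p.s q.s g :=
  ⟨⟨_, amal_fin p.fin q.fin, amal_valid p.val q.val hqC h⟩, rfl⟩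

/-- A part of `w` in `C` -/
theorem exists_part {C : Set (At K)} (p s w : Cd K) (hpC : p.s ⊆ NN C) (hsC : s.s ⊆ NN C)
    (hp : p.s ⊆ w.s) (hs : s.s ⊆ w.s) :
    ∃ q : Cd K, q.s ⊆ NN C ∧ p.s ⊆ q.s ∧ s.s ⊆ q.s ∧
      ∀ e, At.pt e ∈ C → ∀ i v, Ft.x e i v ∈ w.s → Ft.x e i v ∈ q.s := by
  have hb : p.s ∪ s.s ⊆ w.s := Set.union_subset hp hs
  have hbC : p.s ∪ s.s ⊆ NN C := Set.union_subset hpC hsC
  obtain ⟨q, hq⟩ := exists_glue (b := p.s ∪ s.s) (A := {e | At.pt e ∈ C}) (W := fun _ => w.s)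
    w.s w.fin (fun _ _ => subset_rfl) (p.fin.union s.fin)
    (fun a c n m h h' => w.val.hfun a c n m (hb h) (hb h')) (fun _ => w.val)
    (fun e i v h => hb h) (fun B n e h => ⟨(mem_NN_pro.1 (hbC h)).2, hb h⟩)
    (fun B n t e h => hb h) (fun B n e h => cert_union B n e h)
  refine ⟨q, ?_, ?_, ?_, ?_⟩
  · rw [hq]
    refine Set.union_subset hbC ?_
    rintro f ⟨e, i, v, rfl, he, -⟩
    exact mem_NN_x.2 he
  · rw [hq]
    exact fun f hf => Or.inl (Or.inl hf)
  · rw [hq]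
    exact fun f hf => Or.inl (Or.inr hf)
  · intro e he i v h
    rw [hq]
    exact Or.inr ⟨e, i, v, rfl, he, h⟩

theorem not_isDeltaSquare (hK : aleph 2 ≤ #K) (p : Cd K) :
    p ∈ fnot (IsDeltaSquare (X (K := K))) := by
  classical
  have : Nonempty K := by
    rw [← mk_ne_zero_iff]
    intro h
    rw [h] at hK
    exact absurd hK (not_le.2 (aleph_pos 2))
  intro p' _ hp'
  obtain ⟨p'', hp'', hU⟩ := mem_fimp.1 (hp' DD) p' le_rfl (isPartition p')
  obtain ⟨p0, _, U, hU1, hU2⟩ := mem_fex.1 hU p'' le_rfl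
  choose N hNc _ hNm using fun n B => countable_name (ccc (K := K)) (U n B)
  -- the countable closed sets
  let M : Set (At K) := (⋃ f ∈ p0.s, ats f) ∪ ⋃ n, ⋃ B, ⋃ s ∈ N n B, ⋃ f ∈ s.s, ats f
  have hM : M.Countable := by
    refine (Set.Countable.biUnion p0.fin.countable fun f _ => (ats_fin f).countable).union ?_
    refine Set.countable_iUnion fun n => Set.countable_iUnion fun B => ?_
    exact Set.Countable.biUnion (hNc n B) fun s _ =>
      Set.Countable.biUnion s.fin.countable fun f _ => (ats_fin f).countable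
  choose C hCc hCM hC using fun e : K => exists_hull (hM.union (Set.countable_singleton (At.pt e)))
  have hp0C : ∀ e, p0.s ⊆ NN (C e) := fun e f hf => by
    refine Set.Subset.trans ?_ (hCM e)
    exact fun a ha => Or.inl (Or.inl (Set.mem_biUnion hf ha))
  have hNC : ∀ e n B, ∀ s ∈ N n B, s.s ⊆ NN (C e) := fun e n B s hs f hf => by
    refine Set.Subset.trans ?_ (hCM e)
    exact fun a ha => Or.inl (Or.inr (Set.mem_iUnion.2 ⟨n, Set.mem_iUnion.2 ⟨B,
      Set.mem_biUnion hs (Set.mem_biUnion hf ha)⟩⟩))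
  have hptC : ∀ e, At.pt e ∈ C e := fun e => hCM e (Or.inr rfl)
  obtain ⟨α, β, hne, hα, hβ⟩ := exists_free hK (fun e => {x | At.hh x.1 x.2 ∈ C e}) (by
    intro e
    refine (hCc e).preimage_of_injOn (f := fun x : K × K => At.hh x.1 x.2) ?_
    intro x _ y _ h
    injection h with h1 h2
    exact Prod.ext h1 h2)
  have hα : At.hh α β ∉ C α := hα
  have hβ : At.hh α β ∉ C β := hβ
  obtain ⟨q0, hq0, m, hm⟩ := mem_fex.1 (hU2 (α, β)) p0 le_rfl
  have hm := hm m le_rfl
  -- the two reductions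
  obtain ⟨pα, gα, hpαC, hpα⟩ := exists_red (hC α) q0
  obtain ⟨p1, hp1⟩ := exists_amal q0 pα hpαC hpα
  obtain ⟨pβ, gβ, hpβC, hpβ⟩ := exists_red (hC β) p1
  obtain ⟨r', hr'⟩ := exists_amal p1 pβ hpβC hpβ
  have hpα1 : pα.s ⊆ p1.s := by
    rw [hp1]
    exact right_sub_amal
  have h1r' : p1.s ⊆ r'.s := by
    rw [hr']
    exact left_sub_amal
  have hpβr' : pβ.s ⊆ r'.s := by
    rw [hr']
    exact right_sub_amal
  have hb : pα.s ∪ pβ.s ⊆ r'.s := Set.union_subset (hpα1.trans h1r') hpβr'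
  have hno : ∀ n, Ft.h α β n ∉ pα.s ∪ pβ.s := by
    rintro n (h | h)
    · exact hα (mem_NN_h.1 (hpαC h))
    · exact hβ (mem_NN_h.1 (hpβC h))
  obtain ⟨u, hu⟩ := exists_glue (b := insert (Ft.h α β m) (pα.s ∪ pβ.s)) (A := Set.univ)
    (W := fun _ => r'.s) r'.s r'.fin (fun _ _ => subset_rfl) ((pα.fin.union pβ.fin).insert _)
    (by
      rintro a c n k (h | h) (h' | h')
      · injection h with h1 h2 h3
        injection h' with h4 h5 h6
        rw [h3, h6]
      · injection h with h1 h2 h3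
        subst h1; subst h2
        exact absurd h' (hno k)
      · injection h' with h1 h2 h3
        subst h1; subst h2
        exact absurd h (hno n)
      · exact r'.val.hfun a c n k (hb h) (hb h'))
    (fun _ => r'.val)
    (by
      rintro e i v (h | h)
      · injection h
      · exact hb h)
    (by
      rintro B n e (h | h)
      · injection h
      · exact ⟨trivial, hb h⟩)
    (by
      rintro B n t e (h | h)
      · injection h
      · exact hb h)
    (by
      rintro B n e (h | h)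
      · injection h
      · obtain ⟨j, h2⟩ := cert_union B n e h
        exact ⟨j, fun f hf => Or.inr (h2 f hf)⟩)
  have hup0 : u ≤ p0 := by
    intro f hf
    rw [hu]
    exact Or.inl (Or.inr (Or.inl (hpα.sub ⟨hq0 hf, hp0C α hf⟩)))
  have huh : u ∈ meets (DD m (α, β)) := by
    refine meets_of_mem ?_
    show Ft.h α β m ∈ u.s
    rw [hu]
    exact Or.inl (Or.inl rfl)
  obtain ⟨u', hu', h1⟩ := mem_fimp.1 (hU1 m (α, β)) u hup0 huh
  obtain ⟨w1, hw1, R, h2, h3, h4⟩ := mem_fex.1 h1 u' le_rfl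
  rw [← hNm m R] at h2
  obtain ⟨w2, hw2, s, hs, hws⟩ := h2 w1 le_rfl
  obtain ⟨w3, hw3, t, h5, h6, h7⟩ := of_InI (down_InI _ _ w1 h3 w2 hw2)
  obtain ⟨w, hw, t', h8, h9, h10⟩ := of_InI (down_InI _ _ w1 h4 w3 (hw3.trans hw2))
  have hwu : u.s ⊆ w.s := (((hw.trans hw3).trans hw2).trans hw1).trans hu'
  have hws' : s.s ⊆ w.s := (hw.trans hw3).trans hws
  have hbw : pα.s ∪ pβ.s ⊆ w.s := by
    refine Set.Subset.trans ?_ hwu
    rw [hu]
    exact fun f hf => Or.inl (Or.inr hf)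
  -- the parts of `w`
  obtain ⟨qα, hqαC, hpqα, hsqα, hxα⟩ := exists_part pα s w hpαC (hNC α m R s hs)
    (Set.subset_union_left.trans hbw) hws'
  obtain ⟨qβ, hqβC, hpqβ, hsqβ, hxβ⟩ := exists_part pβ s w hpβC (hNC β m R s hs)
    (Set.subset_union_right.trans hbw) hws'
  obtain ⟨rα, hrα⟩ := exists_amal q0 qα hqαC (hpα.mono hpqα)
  obtain ⟨rβ, hrβ⟩ := exists_amal p1 qβ hqβC (hpβ.mono hpqβ)
  have h1α : p1.s ⊆ rα.s := by
    rw [hp1, hrα]
    exact amal_mono hpqα
  have h1β : p1.s ⊆ rβ.s := by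
    rw [hrβ]
    exact left_sub_amal
  have hsα : s.s ⊆ rα.s := by
    rw [hrα]
    exact hsqα.trans right_sub_amal
  have hsβ : s.s ⊆ rβ.s := by
    rw [hrβ]
    exact hsqβ.trans right_sub_amal
  have hbα : p1.s ∪ s.s ⊆ rα.s := Set.union_subset h1α hsα
  have hbβ : p1.s ∪ s.s ⊆ rβ.s := Set.union_subset h1β hsβ
  obtain ⟨r, hr⟩ := exists_glue (b := p1.s ∪ s.s) (A := Set.univ)
    (W := fun e => if e = α then rα.s else rβ.s) (rα.s ∪ rβ.s) (rα.fin.union rβ.fin)
    (by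
      intro e _
      split_ifs
      · exact Set.subset_union_left
      · exact Set.subset_union_right)
    (p1.fin.union s.fin)
    (fun a c n k h h' => rα.val.hfun a c n k (hbα h) (hbα h'))
    (by
      intro e
      split_ifs
      · exact rα.val
      · exact rβ.val)
    (by
      intro e i v h
      split_ifs
      · exact hbα h
      · exact hbβ h)
    (by
      intro B n e h
      refine ⟨trivial, ?_⟩
      split_ifs
      · exact hbα h
      · exact hbβ h)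
    (by
      intro B n t e h
      split_ifs
      · exact hbα h
      · exact hbβ h)
    (fun B n e h => cert_union B n e h)
  have hrq0 : r ≤ q0 := by
    intro f hf
    rw [hr]
    refine Or.inl (Or.inl ?_)
    rw [hp1]
    exact left_sub_amal hf
  have hrs : r ≤ s := by
    intro f hf
    rw [hr]
    exact Or.inl (Or.inr hf)
  have hrt : Seg r.s α t := by
    intro i hi
    rw [hr]
    refine Or.inr ⟨α, i, _, rfl, trivial, ?_⟩
    show Ft.x α i (ofL t i) ∈ if α = α then rα.s else rβ.s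
    rw [if_pos rfl, hrα]
    exact right_sub_amal (hxα α (hptC α) i _ (hw (h5 i hi)))
  have hrt' : Seg r.s β t' := by
    intro i hi
    rw [hr]
    refine Or.inr ⟨β, i, _, rfl, trivial, ?_⟩
    show Ft.x β i (ofL t' i) ∈ if β = α then rα.s else rβ.s
    rw [if_neg hne.symm, hrβ]
    exact right_sub_amal (hxβ β (hptC β) i _ (h8 i hi))
  refine hm r hrq0 (mem_fex_of_mem R (down_fand (down_meets _)
    (down_fand (down_InI _ _) (down_InI _ _))) ⟨?_, mem_InI hrt h6 h7, mem_InI hrt' h9 h10⟩)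
  rw [← hNm m R]
  exact meets_of_le hs hrs

end Run7.h699.Delta
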